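import Pool.Agent.R624.DB.Defs

/-! Project DB (helper624), piece (B2) by helper780: an action of the dihedral group without bases of size
at most `ω(n)`. -/

set_option autoImplicit false

namespace R624DB

namespace B2

/-- the prime power of `p` in `n` -/
abbrev pe (n : ℕ) (p : {x // x ∈ n.primeFactors}) : ℕ := p.1 ^ n.factorization p.1

lemma pe_dvd (n : ℕ) (p : {x // x ∈ n.primeFactors}) : pe n p ∣ n := Nat.ordProj_dvd n p.1

lemma pe_ne (n : ℕ) (p : {x // x ∈ n.primeFactors}) : pe n p ≠ 0 :=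
  pow_ne_zero _ (Nat.prime_of_mem_primeFactors p.2).ne_zero

lemma dvd_of_pe {n m : ℕ} (hn : n ≠ 0) (h : ∀ p : {x // x ∈ n.primeFactors}, pe n p ∣ m) : n ∣ m := by
  rw [Nat.dvd_iff_prime_pow_dvd_dvd]
  intro p k hp hk
  rcases Nat.eq_zero_or_pos k with rfl | hk0
  · simp
  have hpn : p ∣ n := (dvd_pow_self p hk0.ne').trans hk
  have hmem : p ∈ n.primeFactors := Nat.mem_primeFactors.mpr ⟨hp, hpn, hn⟩
  have hle : k ≤ n.factorization p := (hp.pow_dvd_iff_le_factorization hn).mp hk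
  exact (pow_dvd_pow p hle).trans (h ⟨p, hmem⟩)

lemma pe_coprime (n : ℕ) (p q : {x // x ∈ n.primeFactors}) (h : p ≠ q) :
    Nat.Coprime (pe n p) (pe n q) := by
  apply Nat.Coprime.pow
  rw [Nat.coprime_primes (Nat.prime_of_mem_primeFactors p.2) (Nat.prime_of_mem_primeFactors q.2)]
  exact fun h' => h (Subtype.ext h')

/-- Chinese remainder theorem -/
lemma crt (n : ℕ) (x : ∀ p : {x // x ∈ n.primeFactors}, ZMod (pe n p)) :
    ∃ a : ZMod n, ∀ p, ZMod.castHom (pe_dvd n p) (ZMod (pe n p)) a = x p := by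
  obtain ⟨k, hk⟩ := Nat.chineseRemainderOfFinset (fun p => (x p).val) (pe n) Finset.univ
    (fun p _ => pe_ne n p) (fun p _ q _ h => pe_coprime n p q h)
  refine ⟨(k : ZMod n), fun p => ?_⟩
  have : NeZero (pe n p) := ⟨pe_ne n p⟩
  rw [map_natCast]
  have h1 := hk p (Finset.mem_univ p)
  rw [← ZMod.natCast_eq_natCast_iff] at h1
  rw [h1, ZMod.natCast_zmod_val]

lemma eq_zero_of_cast {n : ℕ} (hn : n ≠ 0) (a : ZMod n)
    (h : ∀ p : {x // x ∈ n.primeFactors}, ZMod.castHom (pe_dvd n p) (ZMod (pe n p)) a = 0) : a = 0 := by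
  have : NeZero n := ⟨hn⟩
  have h1 : n ∣ a.val := by
    apply dvd_of_pe hn
    intro p
    have h2 := h p
    rw [← ZMod.natCast_zmod_val a, map_natCast] at h2
    exact (ZMod.natCast_eq_zero_iff _ _).mp h2
  rw [← ZMod.natCast_zmod_val a]
  exact (ZMod.natCast_eq_zero_iff _ _).mpr h1

/-- the action on the disjoint union of the `ZMod (p ^ v_p)` -/
def act (n : ℕ) : DihedralGroup n →* Equiv.Perm (Σ p : {x // x ∈ n.primeFactors}, ZMod (pe n p)) :=
  (Equiv.Perm.sigmaCongrRightHom _).comp (MonoidHom.pi fun p => actZ (pe_dvd n p) 0)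

lemma act_apply (n : ℕ) (g : DihedralGroup n) (p : {x // x ∈ n.primeFactors}) (x : ZMod (pe n p)) :
    act n g ⟨p, x⟩ = ⟨p, actZ (pe_dvd n p) 0 g x⟩ := rfl

lemma act_eq_iff (n : ℕ) (g : DihedralGroup n) (p : {x // x ∈ n.primeFactors}) (x y : ZMod (pe n p)) :
    act n g ⟨p, x⟩ = ⟨p, y⟩ ↔ actZ (pe_dvd n p) 0 g x = y := by
  rw [act_apply]
  constructor
  · intro h
    simpa using h
  · intro h
    rw [h]

lemma actZ_r {n m : ℕ} (hd : m ∣ n) (h : ZMod m) (a : ZMod n) (x : ZMod m) :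
    actZ hd h (.r a) x = x + ZMod.castHom hd (ZMod m) a := rfl

lemma actZ_sr {n m : ℕ} (hd : m ∣ n) (h : ZMod m) (a : ZMod n) (x : ZMod m) :
    actZ hd h (.sr a) x = - ZMod.castHom hd (ZMod m) a - x - h := rfl

lemma act_injective {n : ℕ} (hn : 2 ≤ n) (hp : ∃ p : ℕ, p.Prime ∧ p ≠ 2 ∧ p ∣ n) :
    Function.Injective (act n) := by
  rw [injective_iff_map_eq_one]
  rintro (a | a) hg
  · have h1 : a = 0 := by
      apply eq_zero_of_cast (by omega)
      intro p
      have h2 : act n (.r a) ⟨p, 0⟩ = ⟨p, 0⟩ := by rw [hg]; rfl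
      rw [act_eq_iff, actZ_r, zero_add] at h2
      exact h2
    rw [h1]; rfl
  · exfalso
    obtain ⟨p, hp, hp2, hpn⟩ := hp
    have hmem : p ∈ n.primeFactors := Nat.mem_primeFactors.mpr ⟨hp, hpn, by omega⟩
    have h0 : act n (.sr a) ⟨⟨p, hmem⟩, 0⟩ = ⟨⟨p, hmem⟩, 0⟩ := by rw [hg]; rfl
    have h1 : act n (.sr a) ⟨⟨p, hmem⟩, 1⟩ = ⟨⟨p, hmem⟩, 1⟩ := by rw [hg]; rfl
    rw [act_eq_iff, actZ_sr] at h0 h1
    have h2 : ((2 : ℕ) : ZMod (pe n ⟨p, hmem⟩)) = 0 := by
      push_cast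
      linear_combination h0 - h1
    rw [ZMod.natCast_eq_zero_iff] at h2
    have h3 : p ∣ pe n ⟨p, hmem⟩ := by
      apply dvd_pow_self
      exact (hp.factorization_pos_of_dvd (by omega) hpn).ne'
    have h4 := h3.trans h2
    exact hp2 ((Nat.prime_dvd_prime_iff_eq hp Nat.prime_two).mp h4)

lemma meets {n : ℕ} (hn : 2 ≤ n) (B : Finset (Σ p : {x // x ∈ n.primeFactors}, ZMod (pe n p)))
    (hB : IsBase (act n) B) (p : {x // x ∈ n.primeFactors}) : ∃ x, (⟨p, x⟩ : Σ p, ZMod (pe n p)) ∈ B := by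
  by_contra hcon
  push Not at hcon
  have hp := Nat.prime_of_mem_primeFactors p.2
  have hpn := Nat.dvd_of_mem_primeFactors p.2
  have h1 : (DihedralGroup.r ((n / p.1 : ℕ) : ZMod n)) = 1 := by
    apply hB
    rintro ⟨q, x⟩ hx
    have hqp : q ≠ p := by
      rintro rfl
      exact hcon x hx
    rw [act_eq_iff, actZ_r, map_natCast]
    have hdvd : pe n q ∣ n / p.1 := by
      have h2 : pe n q ∣ p.1 * (n / p.1) := by
        rw [Nat.mul_div_cancel' hpn]; exact pe_dvd n q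
      refine Nat.Coprime.dvd_of_dvd_mul_left ?_ h2
      apply Nat.Coprime.pow_left
      rw [Nat.coprime_primes (Nat.prime_of_mem_primeFactors q.2) hp]
      exact fun h' => hqp (Subtype.ext h')
    rw [(ZMod.natCast_eq_zero_iff _ _).mpr hdvd, add_zero]
  rw [DihedralGroup.one_def, DihedralGroup.r.injEq, ZMod.natCast_eq_zero_iff] at h1
  have h3 : 0 < n / p.1 := Nat.div_pos (Nat.le_of_dvd (by omega) hpn) hp.pos
  have h4 : n / p.1 < n := Nat.div_lt_self (by omega) hp.one_lt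
  exact absurd (Nat.le_of_dvd h3 h1) (by omega)

end B2

open B2 in
theorem s_B2 : S_B2 := by
  intro n hn hp
  have : ∀ p : {x // x ∈ n.primeFactors}, NeZero (pe n p) := fun p => ⟨pe_ne n p⟩
  refine ⟨Σ p : {x // x ∈ n.primeFactors}, ZMod (pe n p), inferInstance, act n, act_injective hn hp, ?_⟩
  intro B hB
  by_contra hcon
  have hle : B.card ≤ n.primeFactors.card := by omega
  have hm := meets hn B hB
  choose x hx using hm
  have himg : B.image Sigma.fst = Finset.univ := by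
    ext p
    simp only [Finset.mem_image, Finset.mem_univ, iff_true]
    exact ⟨⟨p, x p⟩, hx p, rfl⟩
  have hcard : (B.image Sigma.fst).card = n.primeFactors.card := by
    rw [himg, Finset.card_univ, Fintype.card_coe]
  have hinj : Set.InjOn Sigma.fst (B : Set (Σ p : {x // x ∈ n.primeFactors}, ZMod (pe n p))) := by
    rw [← Finset.card_image_iff]
    apply le_antisymm Finset.card_image_le
    rw [hcard]; exact hle
  obtain ⟨a, ha⟩ := crt n (fun p => - 2 * x p)
  have h1 : (DihedralGroup.sr a) = 1 := by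
    apply hB
    rintro ⟨q, y⟩ hy
    have hyx : (⟨q, y⟩ : Σ p : {x // x ∈ n.primeFactors}, ZMod (pe n p)) = ⟨q, x q⟩ :=
      hinj hy (hx q) rfl
    rw [hyx, act_eq_iff, actZ_sr, ha q]
    ring
  rw [DihedralGroup.one_def] at h1
  cases h1

end R624DB
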