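import Mathlib

/-!
# Base size sets and determining sets of dihedral groups (MP_4c7f2d_al): definitions
-/

set_option autoImplicit false

namespace R624DB

/-- `B` is a base of the action `ρ` of `G` on `X`: the pointwise stabilizer of `B` is trivial. -/
def IsBase {G X : Type} [Group G] (ρ : G →* Equiv.Perm X) (B : Finset X) : Prop :=
  ∀ g : G, (∀ x ∈ B, ρ g x = x) → g = 1

/-- `m` is the base size of the action `ρ`. -/
def BaseSize {G X : Type} [Group G] (ρ : G →* Equiv.Perm X) (m : ℕ) : Prop :=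
  IsLeast {k | ∃ B : Finset X, B.card = k ∧ IsBase ρ B} m

/-- `m` is the base size of the action of the automorphism group of the graph `Γ` on the
vertices (the determining number of `Γ`). -/
def DetNumber {V : Type} (Γ : SimpleGraph V) (m : ℕ) : Prop :=
  IsLeast {k | ∃ B : Finset V, B.card = k ∧ ∀ g : Γ ≃g Γ, (∀ x ∈ B, g x = x) → ∀ x, g x = x} m

/-- The base size set of `G`: the base sizes of the faithful actions of `G` on finite sets. -/
def BSet (G : Type) [Group G] : Set ℕ :=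
  {m | ∃ (X : Type) (_ : Fintype X) (ρ : G →* Equiv.Perm X), Function.Injective ρ ∧ BaseSize ρ m}

/-- The determining set of `G`: the base sizes of the actions of `Aut Γ` on the vertices of `Γ`,
for the finite graphs `Γ` with `Aut Γ` isomorphic to `G`. -/
def DSet (G : Type) [Group G] : Set ℕ :=
  {m | ∃ (V : Type) (_ : Fintype V) (Γ : SimpleGraph V), Nonempty ((Γ ≃g Γ) ≃* G) ∧ DetNumber Γ m}

/-- Every odd prime divisor of `n` has exponent at least two, or `n` is an odd prime or twice an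
odd prime. -/
def Good (n : ℕ) : Prop :=
  (∀ p : ℕ, p.Prime → p ≠ 2 → p ∣ n → p ^ 2 ∣ n) ∨ ∃ p : ℕ, p.Prime ∧ p ≠ 2 ∧ (n = p ∨ n = 2 * p)

/-! ### Working definitions -/

/-- The permutation group is 2-closed: a permutation that agrees on every pair of points with some
element of the group is in the group. -/
def TwoClosed {G X : Type} [Group G] (ρ : G →* Equiv.Perm X) : Prop :=
  ∀ π : Equiv.Perm X, (∀ x y, ∃ g : G, ρ g x = π x ∧ ρ g y = π y) → ∃ g : G, ρ g = π

/-! ### The statements of the pieces -/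

/-- (enc) vertex colourings can be encoded by additional fixed vertices -/
def S_enc : Prop := ∀ (V : Type) [Fintype V] [Nonempty V] (H : SimpleGraph V) (C : ℕ) (col : V → Fin C),
  ∃ (W : Type) (_ : Fintype W) (Γ : SimpleGraph W) (i : V → W), Function.Injective i ∧
    (∀ g : Γ ≃g Γ, ∃ π : Equiv.Perm V, (∀ a b, H.Adj a b ↔ H.Adj (π a) (π b)) ∧
      (∀ v, col (π v) = col v) ∧ (∀ v, g (i v) = i (π v)) ∧ ∀ w, w ∉ Set.range i → g w = w) ∧
    (∀ π : Equiv.Perm V, (∀ a b, H.Adj a b ↔ H.Adj (π a) (π b)) → (∀ v, col (π v) = col v) →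
      ∃ g : Γ ≃g Γ, (∀ v, g (i v) = i (π v)) ∧ ∀ w, w ∉ Set.range i → g w = w)

/-- (gr) 2-closed faithful actions give graphs with the same base size -/
def S_gr : Prop := ∀ (G : Type) [Group G] (X : Type) [Fintype X] [Nonempty X]
  (ρ : G →* Equiv.Perm X), Function.Injective ρ → TwoClosed ρ → ∀ m, BaseSize ρ m → m ∈ DSet G

/-- (ub) upper bound of the base size of a faithful action of the dihedral group -/
def S_ub : Prop := ∀ n : ℕ, 2 ≤ n → ∀ (X : Type) [Fintype X] (ρ : DihedralGroup n →* Equiv.Perm X),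
  Function.Injective ρ → ∃ B : Finset X, B.card ≤ n.primeFactors.card + 1 ∧ IsBase ρ B

/-- (no) the maximal base size is not attained by a graph if `n` is not good -/
def S_no : Prop := ∀ n : ℕ, 2 ≤ n → ¬ Good n → ∀ (V : Type) [Fintype V] (Γ : SimpleGraph V)
  (ρ : DihedralGroup n →* Equiv.Perm V), Function.Injective ρ →
  (∀ g x y, Γ.Adj x y ↔ Γ.Adj (ρ g x) (ρ g y)) →
  (∀ π : Equiv.Perm V, (∀ x y, Γ.Adj x y ↔ Γ.Adj (π x) (π y)) → ∃ g, ρ g = π) →
  ∃ B : Finset V, B.card ≤ n.primeFactors.card ∧ IsBase ρ B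

/-- (R) regular type actions of base size `b` for `1 ≤ b ≤ ω(n)` -/
def S_R : Prop := ∀ n : ℕ, 2 ≤ n → ∀ b : ℕ, 1 ≤ b → b ≤ n.primeFactors.card →
  ∃ (X : Type) (_ : Fintype X) (_ : Nonempty X) (ρ : DihedralGroup n →* Equiv.Perm X),
    Function.Injective ρ ∧ TwoClosed ρ ∧ BaseSize ρ b

/-- (B2) an action without bases of size at most `ω(n)` -/
def S_B2 : Prop := ∀ n : ℕ, 2 ≤ n → (∃ p : ℕ, p.Prime ∧ p ≠ 2 ∧ p ∣ n) →
  ∃ (X : Type) (_ : Fintype X) (ρ : DihedralGroup n →* Equiv.Perm X),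
    Function.Injective ρ ∧ ∀ B, IsBase ρ B → n.primeFactors.card + 1 ≤ B.card

/-- (G2) a 2-closed such action for `n = p` and `n = 2 p` -/
def S_G2 : Prop := ∀ n p : ℕ, p.Prime → p ≠ 2 → (n = p ∨ n = 2 * p) →
  ∃ (X : Type) (_ : Fintype X) (_ : Nonempty X) (ρ : DihedralGroup n →* Equiv.Perm X),
    Function.Injective ρ ∧ TwoClosed ρ ∧ ∀ B, IsBase ρ B → n.primeFactors.card + 1 ≤ B.card

/-- (G1a) a 2-closed such action if all odd primes have exponent at least two, `4 ∤ n` -/
def S_G1a : Prop := ∀ n : ℕ, 2 ≤ n → ¬ 4 ∣ n → (∀ p : ℕ, p.Prime → p ≠ 2 → p ∣ n → p ^ 2 ∣ n) →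
  ∃ (X : Type) (_ : Fintype X) (_ : Nonempty X) (ρ : DihedralGroup n →* Equiv.Perm X),
    Function.Injective ρ ∧ TwoClosed ρ ∧ ∀ B, IsBase ρ B → n.primeFactors.card + 1 ≤ B.card

/-- (G1b) a 2-closed such action if all odd primes have exponent at least two, `4 ∣ n` -/
def S_G1b : Prop := ∀ n : ℕ, 2 ≤ n → 4 ∣ n → (∀ p : ℕ, p.Prime → p ≠ 2 → p ∣ n → p ^ 2 ∣ n) →
  ∃ (X : Type) (_ : Fintype X) (_ : Nonempty X) (ρ : DihedralGroup n →* Equiv.Perm X),
    Function.Injective ρ ∧ TwoClosed ρ ∧ ∀ B, IsBase ρ B → n.primeFactors.card + 1 ≤ B.card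

/-! ### Actions of dihedral groups -/

/-- reduction of the dihedral group modulo a divisor -/
def red {n m : ℕ} (h : m ∣ n) : DihedralGroup n →* DihedralGroup m where
  toFun g := match g with
    | .r a => .r (ZMod.castHom h (ZMod m) a)
    | .sr a => .sr (ZMod.castHom h (ZMod m) a)
  map_one' := by
    change DihedralGroup.r (ZMod.castHom h (ZMod m) 0) = DihedralGroup.r 0
    rw [map_zero]
  map_mul' := by
    rintro (a | a) (b | b) <;> simp [map_add, map_sub]

/-- the action of the dihedral group `D_n` on the vertices of the `m`-gon, `m ∣ n`: `r a` is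
`x ↦ x + a`, `sr a` is `x ↦ - a - x`; with `h = 1`: on the edges, `sr a` is `x ↦ - a - x - 1` -/
def actZ {n m : ℕ} (hd : m ∣ n) (h : ZMod m) : DihedralGroup n →* Equiv.Perm (ZMod m) where
  toFun g := match g with
    | .r a => ⟨fun x => x + ZMod.castHom hd (ZMod m) a, fun x => x - ZMod.castHom hd (ZMod m) a,
        fun x => by simp, fun x => by simp⟩
    | .sr a => ⟨fun x => - ZMod.castHom hd (ZMod m) a - x - h,
        fun x => - ZMod.castHom hd (ZMod m) a - x - h, fun x => by ring, fun x => by ring⟩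
  map_one' := by
    ext x
    change x + ZMod.castHom hd (ZMod m) 0 = x
    rw [map_zero, add_zero]
  map_mul' := by
    rintro (a | a) (b | b) <;> ext x <;> simp [map_add, map_sub] <;> ring

end R624DB
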