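import Pool.Agent.R624.DB.Defs

/-!
# MP_4c7f2d_al, piece (enc): encoding a vertex colouring by fixed vertices
-/

set_option autoImplicit false

namespace R624DB

namespace Enc

/-- the adjacency relation -/
def eAdj {V : Type} (H : SimpleGraph V) {C : ℕ} (col : V → Fin C) (M : ℕ) :
    V ⊕ Fin M → V ⊕ Fin M → Prop
  | .inl a, .inl b => H.Adj a b
  | .inl v, .inr j => (j : ℕ) = 0 ∨ (j : ℕ) = col v + 1
  | .inr j, .inl v => (j : ℕ) = 0 ∨ (j : ℕ) = col v + 1
  | .inr i, .inr j => (i : ℕ) + 2 ≤ j ∨ (j : ℕ) + 2 ≤ i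

/-- the graph -/
def eG {V : Type} (H : SimpleGraph V) {C : ℕ} (col : V → Fin C) (M : ℕ) :
    SimpleGraph (V ⊕ Fin M) where
  Adj := eAdj H col M
  symm := ⟨by
    rintro (a | i) (b | j) h
    · exact H.adj_symm h
    · exact h
    · exact h
    · exact Or.symm h⟩
  loopless := ⟨by
    rintro (a | i) h
    · exact H.loopless.irrefl a h
    · rcases h with h | h <;> omega⟩

variable {V : Type} (H : SimpleGraph V) {C : ℕ} (col : V → Fin C) (M : ℕ)

theorem ll (a b : V) : (eG H col M).Adj (.inl a) (.inl b) ↔ H.Adj a b := Iff.rfl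
theorem lr (v : V) (j : Fin M) :
    (eG H col M).Adj (.inl v) (.inr j) ↔ ((j : ℕ) = 0 ∨ (j : ℕ) = col v + 1) := Iff.rfl
theorem rl (v : V) (j : Fin M) :
    (eG H col M).Adj (.inr j) (.inl v) ↔ ((j : ℕ) = 0 ∨ (j : ℕ) = col v + 1) := Iff.rfl
theorem rr (i j : Fin M) :
    (eG H col M).Adj (.inr i) (.inr j) ↔ ((i : ℕ) + 2 ≤ j ∨ (j : ℕ) + 2 ≤ i) := Iff.rfl

theorem nb_image (g : eG H col M ≃g eG H col M) (w : V ⊕ Fin M) :
    (eG H col M).neighborSet (g w) = g '' ((eG H col M).neighborSet w) := by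
  ext x
  simp only [SimpleGraph.mem_neighborSet, Set.mem_image]
  constructor
  · intro h
    refine ⟨g.symm x, ?_, by simp⟩
    rw [← g.map_adj_iff]
    simpa using h
  · rintro ⟨y, hy, rfl⟩
    exact g.map_adj_iff.2 hy

theorem nb_card (g : eG H col M ≃g eG H col M) (w : V ⊕ Fin M) :
    ((eG H col M).neighborSet (g w)).ncard = ((eG H col M).neighborSet w).ncard := by
  rw [nb_image, Set.ncard_image_of_injective _ g.injective]

theorem nb_inl [Fintype V] (v : V) :
    ((eG H col M).neighborSet (.inl v)).ncard ≤ Fintype.card V + 2 := by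
  classical
  have hsub : (eG H col M).neighborSet (.inl v) ⊆
      Set.range (Sum.inl : V → V ⊕ Fin M) ∪
        ((Sum.inr : Fin M → V ⊕ Fin M) '' {j : Fin M | (j : ℕ) = 0 ∨ (j : ℕ) = col v + 1}) := by
    rintro (a | j) h
    · exact Or.inl ⟨a, rfl⟩
    · exact Or.inr ⟨j, h, rfl⟩
  have h1 : (Set.range (Sum.inl : V → V ⊕ Fin M)).ncard = Fintype.card V := by
    rw [← Set.image_univ, Set.ncard_image_of_injective _ Sum.inl_injective, Set.ncard_univ,
      Nat.card_eq_fintype_card]
  have h2 : ((Sum.inr : Fin M → V ⊕ Fin M) ''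
      {j : Fin M | (j : ℕ) = 0 ∨ (j : ℕ) = col v + 1}).ncard ≤ 2 := by
    rw [Set.ncard_image_of_injective _ Sum.inr_injective,
      ← Set.ncard_image_of_injective _ Fin.val_injective]
    have : Fin.val '' {j : Fin M | (j : ℕ) = 0 ∨ (j : ℕ) = col v + 1} ⊆
        (({0, (col v : ℕ) + 1} : Finset ℕ) : Set ℕ) := by
      rintro _ ⟨j, hj, rfl⟩
      simpa using hj
    refine (Set.ncard_le_ncard this (Finset.finite_toSet _)).trans ?_
    rw [Set.ncard_coe_finset]
    exact Finset.card_le_two
  calc ((eG H col M).neighborSet (.inl v)).ncard ≤ _ := Set.ncard_le_ncard hsub (Set.toFinite _)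
    _ ≤ _ := Set.ncard_union_le _ _
    _ ≤ Fintype.card V + 2 := by omega

theorem nb_inr [Fintype V] (j : Fin M) :
    M ≤ ((eG H col M).neighborSet (.inr j)).ncard + 3 := by
  classical
  have hsub : Set.range (Sum.inr : Fin M → V ⊕ Fin M) ⊆
      (eG H col M).neighborSet (.inr j) ∪ ((Sum.inr : Fin M → V ⊕ Fin M) ''
        {i : Fin M | (i : ℕ) + 1 = j ∨ (i : ℕ) = j ∨ (i : ℕ) = j + 1}) := by
    rintro _ ⟨i, rfl⟩
    by_cases h : (j : ℕ) + 2 ≤ i ∨ (i : ℕ) + 2 ≤ j
    · exact Or.inl h
    · refine Or.inr ⟨i, ?_, rfl⟩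
      show (i : ℕ) + 1 = j ∨ (i : ℕ) = j ∨ (i : ℕ) = j + 1
      omega
  have h1 : (Set.range (Sum.inr : Fin M → V ⊕ Fin M)).ncard = M := by
    rw [← Set.image_univ, Set.ncard_image_of_injective _ Sum.inr_injective, Set.ncard_univ,
      Nat.card_eq_fintype_card, Fintype.card_fin]
  have h2 : ((Sum.inr : Fin M → V ⊕ Fin M) ''
      {i : Fin M | (i : ℕ) + 1 = j ∨ (i : ℕ) = j ∨ (i : ℕ) = j + 1}).ncard ≤ 3 := by
    rw [Set.ncard_image_of_injective _ Sum.inr_injective,
      ← Set.ncard_image_of_injective _ Fin.val_injective]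
    have : Fin.val '' {i : Fin M | (i : ℕ) + 1 = j ∨ (i : ℕ) = j ∨ (i : ℕ) = j + 1} ⊆
        (({(j : ℕ) - 1, (j : ℕ), (j : ℕ) + 1} : Finset ℕ) : Set ℕ) := by
      rintro _ ⟨i, hi, rfl⟩
      have hi' : (i : ℕ) + 1 = j ∨ (i : ℕ) = j ∨ (i : ℕ) = j + 1 := hi
      simp only [Finset.coe_insert, Finset.coe_singleton, Set.mem_insert_iff,
        Set.mem_singleton_iff]
      omega
    refine (Set.ncard_le_ncard this (Finset.finite_toSet _)).trans ?_
    rw [Set.ncard_coe_finset]
    exact Finset.card_le_three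
  have := (Set.ncard_le_ncard hsub (Set.toFinite _)).trans (Set.ncard_union_le _ _)
  omega

/-- the frame is preserved -/
theorem inr_inr [Fintype V] (hM : Fintype.card V + C + 6 ≤ M)
    (g : eG H col M ≃g eG H col M) (j : Fin M) : ∃ i, g (.inr j) = .inr i := by
  rcases h : g (.inr j) with v | i
  · exfalso
    have h1 := nb_card H col M g (.inr j)
    rw [h] at h1
    have h2 := nb_inl H col M v
    have h3 := nb_inr H col M j
    omega
  · exact ⟨i, rfl⟩

theorem inl_inl [Fintype V] (hM : Fintype.card V + C + 6 ≤ M)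
    (g : eG H col M ≃g eG H col M) (v : V) : ∃ u, g (.inl v) = .inl u := by
  rcases h : g (.inl v) with u | j
  · exact ⟨u, rfl⟩
  · exfalso
    obtain ⟨i, hi⟩ := inr_inr H col M hM g.symm j
    rw [← h] at hi
    simp at hi

/-- at most one other vertex is not adjacent to `w` -/
def P {W : Type} (Γ : SimpleGraph W) (w : W) : Prop :=
  ∀ a b, a ≠ w → b ≠ w → ¬ Γ.Adj w a → ¬ Γ.Adj w b → a = b

theorem P_map {W : Type} (Γ : SimpleGraph W) (g : Γ ≃g Γ) (w : W) (h : P Γ w) : P Γ (g w) := by
  intro a b ha hb hwa hwb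
  have : g.symm a = g.symm b := by
    apply h
    · intro e; apply ha; rw [← e]; simp
    · intro e; apply hb; rw [← e]; simp
    · intro e; apply hwa; have := g.map_adj_iff.2 e; simpa using this
    · intro e; apply hwb; have := g.map_adj_iff.2 e; simpa using this
  exact g.symm.injective this

theorem P_zero (h0 : 0 < M) : P (eG H col M) (.inr ⟨0, h0⟩) := by
  have key : ∀ a, a ≠ Sum.inr ⟨0, h0⟩ → ¬ (eG H col M).Adj (.inr ⟨0, h0⟩) a →
      ∃ i : Fin M, a = .inr i ∧ (i : ℕ) = 1 := by
    rintro (v | i) ha hn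
    · exact absurd (Or.inl rfl) hn
    · refine ⟨i, rfl, ?_⟩
      rw [rr] at hn
      have : (i : ℕ) ≠ 0 := by
        intro e
        apply ha
        congr 1
        exact Fin.ext e
      simp only at hn
      omega
  intro a b ha hb hna hnb
  obtain ⟨i, rfl, hi⟩ := key a ha hna
  obtain ⟨j, rfl, hj⟩ := key b hb hnb
  congr 1
  exact Fin.ext (hi.trans hj.symm)

theorem P_uniq [Nonempty V] (hM : C + 6 ≤ M) (j : Fin M) (h : P (eG H col M) (.inr j)) :
    (j : ℕ) = 0 := by
  by_contra hj
  obtain ⟨v⟩ := ‹Nonempty V›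
  have hjM := j.2
  have hlt := (col v).2
  by_cases hl : (j : ℕ) + 1 < M
  · have := h (.inr ⟨j - 1, by omega⟩) (.inr ⟨j + 1, hl⟩)
      (by intro e; have := congrArg Fin.val (Sum.inr_injective e); simp only at this; omega)
      (by intro e; have := congrArg Fin.val (Sum.inr_injective e); simp only at this; omega)
      (by rw [rr]; simp only; omega) (by rw [rr]; simp only; omega)
    have := congrArg Fin.val (Sum.inr_injective this)
    simp only at this
    omega
  · have := h (.inr ⟨j - 1, by omega⟩) (.inl v)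
      (by intro e; have := congrArg Fin.val (Sum.inr_injective e); simp only at this; omega)
      (by simp) (by rw [rr]; simp only; omega) (by rw [rl]; omega)
    simp at this

theorem fix_frame [Fintype V] [Nonempty V] (hM : Fintype.card V + C + 6 ≤ M)
    (g : eG H col M ≃g eG H col M) : ∀ (n : ℕ) (hn : n < M), g (.inr ⟨n, hn⟩) = .inr ⟨n, hn⟩ := by
  have h0 : ∀ hn : 0 < M, g (.inr ⟨0, hn⟩) = .inr ⟨0, hn⟩ := by
    intro hn
    obtain ⟨i, hi⟩ := inr_inr H col M hM g ⟨0, hn⟩
    have h1 := P_map _ g _ (P_zero H col M hn)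
    rw [hi] at h1
    have h2 := P_uniq H col M (by omega) i h1
    rw [hi]
    congr 1
    exact Fin.ext h2
  intro n
  induction n using Nat.strong_induction_on with
  | _ n ih =>
    intro hn
    rcases n with _ | n
    · exact h0 hn
    · have hn' : n < M := by omega
      have e1 := ih n (by omega) hn'
      obtain ⟨i, hi⟩ := inr_inr H col M hM g ⟨n + 1, hn⟩
      have hne : (i : ℕ) ≠ n := by
        intro e
        have : g (.inr ⟨n + 1, hn⟩) = g (.inr ⟨n, hn'⟩) := by
          rw [hi, e1]; congr 1; exact Fin.ext e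
        have := congrArg Fin.val (Sum.inr_injective (g.injective this))
        simp only at this
        omega
      have hadj : ¬ (eG H col M).Adj (.inr ⟨n, hn'⟩) (.inr i) := by
        rw [← e1, ← hi, g.map_adj_iff, rr]
        simp only
        omega
      rw [rr] at hadj
      simp only at hadj
      rw [hi]
      congr 1
      apply Fin.ext
      show (i : ℕ) = n + 1
      by_contra hc
      have hi1 : (i : ℕ) + 1 = n := by omega
      have e2 := ih i (by omega) i.2
      have : g (.inr ⟨n + 1, hn⟩) = g (.inr ⟨i, i.2⟩) := by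
        rw [hi, e2]
      have := congrArg Fin.val (Sum.inr_injective (g.injective this))
      simp only at this
      omega

end Enc

open Enc in
theorem s_enc : S_enc := by
  intro V _ _ H C col
  set M := Fintype.card V + C + 6 with hMdef
  have hM : Fintype.card V + C + 6 ≤ M := le_refl _
  refine ⟨V ⊕ Fin M, inferInstance, eG H col M, Sum.inl, Sum.inl_injective, ?_, ?_⟩
  · intro g
    choose π hπ using inl_inl H col M hM g
    choose π' hπ' using inl_inl H col M hM g.symm
    have hfix : ∀ j : Fin M, g (.inr j) = .inr j := fun j => fix_frame H col M hM g j j.2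
    refine ⟨⟨π, π', ?_, ?_⟩, ?_, ?_, ?_, ?_⟩
    · intro v
      apply Sum.inl_injective (β := Fin M)
      rw [← hπ', ← hπ]
      simp
    · intro v
      apply Sum.inl_injective (β := Fin M)
      rw [← hπ, ← hπ']
      simp
    · intro a b
      show H.Adj a b ↔ H.Adj (π a) (π b)
      rw [← ll H col M, ← ll H col M, ← hπ, ← hπ, g.map_adj_iff]
    · intro v
      show col (π v) = col v
      have hlt := (col v).2
      have h1 : (eG H col M).Adj (.inl v) (.inr ⟨col v + 1, by omega⟩) := Or.inr rfl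
      have h2 := g.map_adj_iff.2 h1
      rw [hπ, hfix, lr] at h2
      simp only at h2
      apply Fin.ext
      omega
    · intro v
      exact hπ v
    · rintro (v | j) hw
      · exact absurd ⟨v, rfl⟩ hw
      · exact hfix j
  · intro π h1 h2
    refine ⟨⟨Equiv.sumCongr π (Equiv.refl _), ?_⟩, ?_, ?_⟩
    · rintro (a | i) (b | j)
      · exact (h1 a b).symm
      · show ((j : ℕ) = 0 ∨ (j : ℕ) = col (π a) + 1) ↔ ((j : ℕ) = 0 ∨ (j : ℕ) = col a + 1)
        rw [h2]
      · show ((i : ℕ) = 0 ∨ (i : ℕ) = col (π b) + 1) ↔ ((i : ℕ) = 0 ∨ (i : ℕ) = col b + 1)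
        rw [h2]
      · exact Iff.rfl
    · intro v
      rfl
    · rintro (v | j) hw
      · exact absurd ⟨v, rfl⟩ hw
      · rfl

end R624DB
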