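import Pool.Agent.R624.DB.Defs

set_option autoImplicit false

namespace R624DB

namespace G1a

open DihedralGroup

theorem red_r {n m : ℕ} (h : m ∣ n) (a : ZMod n) :
    red h (r a) = r (ZMod.castHom h (ZMod m) a) := rfl
theorem red_sr {n m : ℕ} (h : m ∣ n) (a : ZMod n) :
    red h (sr a) = sr (ZMod.castHom h (ZMod m) a) := rfl
theorem actZ_r {n m : ℕ} (hd : m ∣ n) (h : ZMod m) (a : ZMod n) (x : ZMod m) :
    actZ hd h (r a) x = x + ZMod.castHom hd (ZMod m) a := rfl
theorem actZ_sr {n m : ℕ} (hd : m ∣ n) (h : ZMod m) (a : ZMod n) (x : ZMod m) :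
    actZ hd h (sr a) x = - ZMod.castHom hd (ZMod m) a - x - h := rfl

abbrev e (n : ℕ) (p : n.primeFactors) : ℕ := (p : ℕ) ^ n.factorization p
abbrev Mn (n : ℕ) : ℕ := n / ∏ p ∈ n.primeFactors, p
abbrev XX (n : ℕ) : Type := DihedralGroup (Mn n) ⊕ (Σ p : n.primeFactors, ZMod (e n p))

theorem hM (n : ℕ) : Mn n ∣ n := Nat.div_dvd_of_dvd (Nat.prod_primeFactors_dvd n)
theorem he (n : ℕ) (p : n.primeFactors) : e n p ∣ n := Nat.ordProj_dvd n p

def rho (n : ℕ) : DihedralGroup n →* Equiv.Perm (XX n) where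
  toFun g := Equiv.sumCongr (MulAction.toPerm (red (hM n) g))
    (Equiv.sigmaCongrRight fun p => actZ (he n p) 0 g)
  map_one' := by
    ext x
    rcases x with v | ⟨p, x⟩
    · simp
    · simp
  map_mul' g h := by
    ext x
    rcases x with v | ⟨p, x⟩
    · simp [mul_assoc]
    · simp

theorem rho_inl (n : ℕ) (g : DihedralGroup n) (v : DihedralGroup (Mn n)) :
    rho n g (Sum.inl v) = Sum.inl (red (hM n) g * v) := rfl
theorem rho_inr (n : ℕ) (g : DihedralGroup n) (p : n.primeFactors) (x : ZMod (e n p)) :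
    rho n g (Sum.inr ⟨p, x⟩) = Sum.inr ⟨p, actZ (he n p) 0 g x⟩ := rfl

theorem dvd_of_all {n k : ℕ} (hn : n ≠ 0)
    (h : ∀ p ∈ n.primeFactors, p ^ n.factorization p ∣ k) : n ∣ k := by
  rw [Nat.dvd_iff_prime_pow_dvd_dvd]
  intro p j hp hj
  rcases Nat.eq_zero_or_pos j with rfl | hj0
  · simp
  · have hpn : p ∣ n := (dvd_pow_self p hj0.ne').trans hj
    have h1 : j ≤ n.factorization p := (hp.pow_dvd_iff_le_factorization hn).mp hj
    exact (pow_dvd_pow p h1).trans (h p (Nat.mem_primeFactors.mpr ⟨hp, hpn, hn⟩))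

/-- CRT -/
theorem crt {n : ℕ} (hn : n ≠ 0) (c : ∀ p : n.primeFactors, ZMod (e n p)) :
    ∃ k : ℕ, ∀ p : n.primeFactors, (k : ZMod (e n p)) = c p := by
  classical
  have hcop : Set.Pairwise ((n.primeFactors : Finset ℕ) : Set ℕ)
      (Function.onFun Nat.Coprime fun p => p ^ n.factorization p) := by
    intro p hp q hq hpq
    exact Nat.Coprime.pow _ _ ((Nat.coprime_primes (Nat.prime_of_mem_primeFactors hp)
      (Nat.prime_of_mem_primeFactors hq)).mpr hpq)
  obtain ⟨k, hk⟩ := Nat.chineseRemainderOfFinset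
    (fun p => if hp : p ∈ n.primeFactors then (c ⟨p, hp⟩).val else 0)
    (fun p => p ^ n.factorization p) n.primeFactors
    (fun p hp => pow_ne_zero _ (Nat.prime_of_mem_primeFactors hp).ne_zero) hcop
  refine ⟨k, fun p => ?_⟩
  have h1 := hk p.1 p.2
  rw [dif_pos p.2] at h1
  haveI : NeZero (e n p) := ⟨pow_ne_zero _ (Nat.prime_of_mem_primeFactors p.2).ne_zero⟩
  have h2 := (ZMod.natCast_eq_natCast_iff _ _ (e n p)).mpr h1
  rw [h2, ZMod.natCast_zmod_val]

theorem cast_nat {n m : ℕ} (h : m ∣ n) (k : ℕ) : ZMod.castHom h (ZMod m) (k : ZMod n) = (k : ZMod m) :=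
  map_natCast _ k

theorem exists_nat {n : ℕ} (hn : n ≠ 0) (a : ZMod n) : ∃ k : ℕ, (k : ZMod n) = a := by
  haveI : NeZero n := ⟨hn⟩
  exact ⟨a.val, ZMod.natCast_zmod_val a⟩

theorem inj {n : ℕ} (hn : n ≠ 0) : Function.Injective (rho n) := by
  rw [injective_iff_map_eq_one]
  intro g hg
  have h1 : red (hM n) g = 1 := by
    have := congrArg (fun f => f (Sum.inl 1)) hg
    simp only [rho_inl, mul_one, Equiv.Perm.coe_one, id_eq] at this
    exact Sum.inl_injective this
  rcases g with a | a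
  · obtain ⟨k, rfl⟩ := exists_nat hn a
    have h2 : ∀ p : n.primeFactors, (k : ZMod (e n p)) = 0 := by
      intro p
      have := congrArg (fun f => f (Sum.inr ⟨p, 0⟩)) hg
      simp only [rho_inr, Equiv.Perm.coe_one, id_eq, actZ_r, cast_nat, zero_add] at this
      have := Sum.inr_injective this
      simpa using this
    have h3 : n ∣ k := dvd_of_all hn fun p hp => by
      exact (ZMod.natCast_eq_zero_iff _ _).mp (h2 ⟨p, hp⟩)
    rw [(ZMod.natCast_eq_zero_iff _ _).mpr h3]
    rfl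
  · rw [red_sr, DihedralGroup.one_def] at h1
    cases h1

theorem base {n : ℕ} (hn : n ≠ 0) (B : Finset (XX n)) (hB : IsBase (rho n) B) :
    n.primeFactors.card + 1 ≤ B.card := by
  classical
  have h1 : ∀ p : n.primeFactors, ∃ x : ZMod (e n p), (Sum.inr ⟨p, x⟩ : XX n) ∈ B := by
    intro p
    by_contra hcon
    push Not at hcon
    have hpp : (p : ℕ).Prime := Nat.prime_of_mem_primeFactors p.2
    have hpn : (p : ℕ) ∣ n := Nat.dvd_of_mem_primeFactors p.2
    have hfix : ∀ x ∈ B, rho n (r ((n / (p : ℕ) : ℕ) : ZMod n)) x = x := by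
      intro x hx
      rcases x with v | ⟨q, x⟩
      · rw [rho_inl, red_r, cast_nat]
        have : (((n / (p : ℕ) : ℕ)) : ZMod (Mn n)) = 0 := by
          rw [ZMod.natCast_eq_zero_iff]
          exact Nat.div_dvd_div_left (Nat.prod_primeFactors_dvd n) (Finset.dvd_prod_of_mem _ p.2)
        rw [this]
        change Sum.inl ((1 : DihedralGroup (Mn n)) * v) = _
        rw [one_mul]
      · have hqp : q ≠ p := by
          rintro rfl
          exact hcon x hx
        have hqp' : (q : ℕ) ≠ p := fun h => hqp (Subtype.ext h)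
        rw [rho_inr, actZ_r, cast_nat]
        have : (((n / (p : ℕ) : ℕ)) : ZMod (e n q)) = 0 := by
          rw [ZMod.natCast_eq_zero_iff]
          have hc : Nat.Coprime (e n q) (p : ℕ) :=
            Nat.Coprime.pow_left _ ((Nat.coprime_primes (Nat.prime_of_mem_primeFactors q.2) hpp).mpr hqp')
          have h3 : e n q ∣ (n / (p : ℕ)) * p := by
            rw [Nat.div_mul_cancel hpn]; exact he n q
          exact hc.dvd_of_dvd_mul_right h3
        rw [this, add_zero]
    have h4 := hB _ hfix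
    rw [DihedralGroup.one_def] at h4
    have h5 : (((n / (p : ℕ) : ℕ)) : ZMod n) = 0 := DihedralGroup.r.inj h4
    rw [ZMod.natCast_eq_zero_iff] at h5
    have h6 : 0 < n / (p : ℕ) := Nat.div_pos (Nat.le_of_dvd (Nat.pos_of_ne_zero hn) hpn) hpp.pos
    have h7 := Nat.le_of_dvd h6 h5
    have h8 : n / (p : ℕ) < n := Nat.div_lt_self (Nat.pos_of_ne_zero hn) hpp.one_lt
    omega
  choose x hx using h1
  by_contra hcard
  have hf : Function.Injective (fun p : n.primeFactors => (Sum.inr ⟨p, x p⟩ : XX n)) := by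
    intro p q hpq
    have := Sum.inr_injective hpq
    exact congrArg Sigma.fst this
  have himg : (Finset.univ.image fun p : n.primeFactors => (Sum.inr ⟨p, x p⟩ : XX n)) = B := by
    apply Finset.eq_of_subset_of_card_le
    · intro y hy
      obtain ⟨p, _, rfl⟩ := Finset.mem_image.mp hy
      exact hx p
    · rw [Finset.card_image_of_injective _ hf]
      simp
      omega
  obtain ⟨k, hk⟩ := crt hn (fun p => - 2 * x p)
  have h9 := hB (sr (k : ZMod n)) (by
    intro y hy
    rw [← himg] at hy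
    obtain ⟨p, _, rfl⟩ := Finset.mem_image.mp hy
    rw [rho_inr, actZ_sr, cast_nat, hk p]
    have : - (- 2 * x p) - x p - 0 = x p := by ring
    rw [this])
  rw [DihedralGroup.one_def] at h9
  cases h9

theorem prodM (n : ℕ) : Mn n * ∏ q ∈ n.primeFactors, q = n :=
  Nat.div_mul_cancel (Nat.prod_primeFactors_dvd n)

theorem pvM {n p : ℕ} (hp : p ∈ n.primeFactors) : p ^ (n.factorization p - 1) ∣ Mn n := by
  have hpp := Nat.prime_of_mem_primeFactors hp
  have hn : n ≠ 0 := (Nat.mem_primeFactors.mp hp).2.2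
  have hv : 1 ≤ n.factorization p :=
    (hpp.dvd_iff_one_le_factorization hn).mp (Nat.dvd_of_mem_primeFactors hp)
  have h1 : p ^ n.factorization p ∣ (Mn n * p) * ∏ q ∈ n.primeFactors.erase p, q := by
    rw [mul_assoc, Finset.mul_prod_erase _ (fun q => q) hp, prodM]
    exact Nat.ordProj_dvd n p
  have hc : Nat.Coprime (p ^ n.factorization p) (∏ q ∈ n.primeFactors.erase p, q) := by
    apply Nat.Coprime.prod_right
    intro q hq
    rw [Finset.mem_erase] at hq
    exact Nat.Coprime.pow_left _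
      ((Nat.coprime_primes hpp (Nat.prime_of_mem_primeFactors hq.2)).mpr (Ne.symm hq.1))
  have h2 := hc.dvd_of_dvd_mul_right h1
  have h3 : p ^ n.factorization p = p ^ (n.factorization p - 1) * p := by
    rw [← pow_succ]; congr 1; omega
  rw [h3] at h2
  exact Nat.dvd_of_mul_dvd_mul_right hpp.pos h2

theorem tc1 {n : ℕ} (hn : n ≠ 0) (h4 : ¬ 4 ∣ n)
    (hodd : ∀ p : ℕ, p.Prime → p ≠ 2 → p ∣ n → p ^ 2 ∣ n)
    (π : Equiv.Perm (XX n)) (hπ : ∀ x y, ∃ g, rho n g x = π x ∧ rho n g y = π y)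
    (hone : π (Sum.inl 1) = Sum.inl 1) : ∃ g, rho n g = π := by
  have hfix : ∀ y, ∃ a : ℕ, Mn n ∣ a ∧ rho n (r (a : ZMod n)) y = π y := by
    intro y
    obtain ⟨g, h1, h2⟩ := hπ (Sum.inl 1) y
    rw [hone, rho_inl, mul_one] at h1
    have h1' := Sum.inl_injective h1
    rcases g with a | a
    · obtain ⟨k, rfl⟩ := exists_nat hn a
      refine ⟨k, ?_, h2⟩
      rw [red_r, DihedralGroup.one_def, cast_nat] at h1'
      exact (ZMod.natCast_eq_zero_iff _ _).mp (DihedralGroup.r.inj h1')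
    · rw [red_sr, DihedralGroup.one_def] at h1'
      cases h1'
  have hinl : ∀ v, π (Sum.inl v) = Sum.inl v := by
    intro v
    obtain ⟨a, ha, h⟩ := hfix (Sum.inl v)
    rw [rho_inl, red_r, cast_nat, (ZMod.natCast_eq_zero_iff _ _).mpr ha] at h
    rw [← h]
    change Sum.inl ((1 : DihedralGroup (Mn n)) * v) = _
    rw [one_mul]
  have hc : ∀ (p : n.primeFactors) (x : ZMod (e n p)), ∃ a : ℕ, Mn n ∣ a ∧
      π (Sum.inr ⟨p, x⟩) = Sum.inr ⟨p, x + (a : ZMod (e n p))⟩ := by
    intro p x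
    obtain ⟨a, ha, h⟩ := hfix (Sum.inr ⟨p, x⟩)
    refine ⟨a, ha, ?_⟩
    rw [← h, rho_inr, actZ_r, cast_nat]
  choose c hcM hc using hc
  -- pairs
  have hpair : ∀ (p : n.primeFactors) (x y : ZMod (e n p)),
      (c p x : ZMod (e n p)) = c p y ∨ (c p x : ZMod (e n p)) - c p y = - 2 * (x - y) := by
    intro p x y
    obtain ⟨g, h1, h2⟩ := hπ (Sum.inr ⟨p, x⟩) (Sum.inr ⟨p, y⟩)
    rw [hc, rho_inr] at h1 h2
    have h1' := Sum.inr_injective h1
    have h2' := Sum.inr_injective h2
    simp only [Sigma.mk.injEq, heq_eq_eq, true_and] at h1' h2'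
    rcases g with a | a
    · rw [actZ_r] at h1' h2'
      left
      exact (add_left_cancel h1').symm.trans (add_left_cancel h2')
    · rw [actZ_sr] at h1' h2'
      right
      linear_combination h2' - h1'
  have hconst : ∀ (p : n.primeFactors) (x y : ZMod (e n p)),
      (c p x : ZMod (e n p)) = c p y := by
    intro p x y
    have hpp : (p : ℕ).Prime := Nat.prime_of_mem_primeFactors p.2
    have hpn : (p : ℕ) ∣ n := Nat.dvd_of_mem_primeFactors p.2
    by_cases hp2 : (p : ℕ) = 2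
    · have hv1 : n.factorization (p : ℕ) = 1 := by
        have hge : 1 ≤ n.factorization (p : ℕ) := (hpp.dvd_iff_one_le_factorization hn).mp hpn
        by_contra hne
        have : 2 ≤ n.factorization (p : ℕ) := by omega
        have h5 : (p : ℕ) ^ 2 ∣ n := (hpp.pow_dvd_iff_le_factorization hn).mpr this
        rw [hp2] at h5
        exact h4 h5
      have h20 : (2 : ZMod (e n p)) = 0 := by
        have h6 : e n p = 2 := by
          change (p : ℕ) ^ n.factorization (p : ℕ) = 2
          rw [hv1, hp2]; rfl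
        have : ((2 : ℕ) : ZMod (e n p)) = 0 := by
          rw [ZMod.natCast_eq_zero_iff, h6]
        exact_mod_cast this
      rcases hpair p x y with h | h
      · exact h
      · rw [neg_mul, h20, zero_mul, neg_zero, sub_eq_zero] at h
        exact h
    · have hv2 : 2 ≤ n.factorization (p : ℕ) :=
        (hpp.pow_dvd_iff_le_factorization hn).mp (hodd p hpp hp2 hpn)
      have hdvd : (p : ℕ) ^ (n.factorization (p : ℕ) - 1) ∣ e n p := pow_dvd_pow _ (by omega)
      have hφa : ∀ a : ℕ, Mn n ∣ a → ZMod.castHom hdvd (ZMod ((p : ℕ) ^ (n.factorization (p : ℕ) - 1)))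
          (a : ZMod (e n p)) = 0 := by
        intro a ha
        rw [map_natCast, ZMod.natCast_eq_zero_iff]
        exact (pvM p.2).trans ha
      have hunit : IsUnit ((2 : ℕ) : ZMod ((p : ℕ) ^ (n.factorization (p : ℕ) - 1))) := by
        rw [ZMod.isUnit_iff_coprime]
        exact Nat.Coprime.pow_right _ ((Nat.coprime_primes Nat.prime_two hpp).mpr (Ne.symm hp2))
      have hne : ∀ x y : ZMod (e n p),
          ZMod.castHom hdvd (ZMod ((p : ℕ) ^ (n.factorization (p : ℕ) - 1))) x ≠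
          ZMod.castHom hdvd (ZMod ((p : ℕ) ^ (n.factorization (p : ℕ) - 1))) y →
          (c p x : ZMod (e n p)) = c p y := by
        intro x y hxy
        rcases hpair p x y with h | h
        · exact h
        · exfalso
          have h7 := congrArg (ZMod.castHom hdvd
            (ZMod ((p : ℕ) ^ (n.factorization (p : ℕ) - 1)))) h
          rw [map_sub, hφa _ (hcM p x), hφa _ (hcM p y), sub_zero, map_mul, map_neg, map_sub] at h7
          have h8 : ((2 : ℕ) : ZMod ((p : ℕ) ^ (n.factorization (p : ℕ) - 1))) *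
              (ZMod.castHom hdvd (ZMod ((p : ℕ) ^ (n.factorization (p : ℕ) - 1))) x -
               ZMod.castHom hdvd (ZMod ((p : ℕ) ^ (n.factorization (p : ℕ) - 1))) y) = 0 := by
            have h2 : (ZMod.castHom hdvd (ZMod ((p : ℕ) ^ (n.factorization (p : ℕ) - 1)))) 2 =
                ((2 : ℕ) : ZMod ((p : ℕ) ^ (n.factorization (p : ℕ) - 1))) := by
              rw [map_ofNat]; rfl
            rw [h2] at h7
            linear_combination h7
          exact hxy (sub_eq_zero.mp ((hunit.mul_right_eq_zero).mp h8))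
      haveI : Fact (1 < (p : ℕ) ^ (n.factorization (p : ℕ) - 1)) :=
        ⟨Nat.one_lt_pow (by omega) hpp.one_lt⟩
      by_cases hxy : ZMod.castHom hdvd (ZMod ((p : ℕ) ^ (n.factorization (p : ℕ) - 1))) x =
          ZMod.castHom hdvd (ZMod ((p : ℕ) ^ (n.factorization (p : ℕ) - 1))) y
      · have h9 : ZMod.castHom hdvd (ZMod ((p : ℕ) ^ (n.factorization (p : ℕ) - 1))) (x + 1) ≠
            ZMod.castHom hdvd (ZMod ((p : ℕ) ^ (n.factorization (p : ℕ) - 1))) x := by
          rw [map_add, map_one]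
          intro h
          exact one_ne_zero (add_eq_left.mp h)
        rw [← hne (x + 1) x h9, hne (x + 1) y (by rw [← hxy]; exact h9)]
      · exact hne x y hxy
  obtain ⟨k, hk⟩ := crt hn (fun p => (c p 0 : ZMod (e n p)))
  have hMk : Mn n ∣ k := by
    have h1 : n ∣ k * ∏ q ∈ n.primeFactors, q := by
      apply dvd_of_all hn
      intro p hp
      have hpp := Nat.prime_of_mem_primeFactors hp
      have hv : 1 ≤ n.factorization p :=
        (hpp.dvd_iff_one_le_factorization hn).mp (Nat.dvd_of_mem_primeFactors hp)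
      have h3 : p ^ n.factorization p = p ^ (n.factorization p - 1) * p := by
        rw [← pow_succ]; congr 1; omega
      rw [h3]
      apply Nat.mul_dvd_mul _ (Finset.dvd_prod_of_mem _ hp)
      have h5 := (ZMod.natCast_eq_natCast_iff _ _ _).mp (hk ⟨p, hp⟩)
      have h6 : k ≡ c ⟨p, hp⟩ 0 [MOD p ^ (n.factorization p - 1)] :=
        Nat.ModEq.of_dvd (pow_dvd_pow p (Nat.sub_le _ _)) h5
      exact (h6.dvd_iff (dvd_refl _)).mpr ((pvM hp).trans (hcM ⟨p, hp⟩ 0))
    have hpos : 0 < ∏ q ∈ n.primeFactors, q :=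
      Finset.prod_pos fun q hq => (Nat.prime_of_mem_primeFactors hq).pos
    have h2 : Mn n * (∏ q ∈ n.primeFactors, q) ∣ k * ∏ q ∈ n.primeFactors, q := by
      rw [prodM]; exact h1
    exact Nat.dvd_of_mul_dvd_mul_right hpos h2
  refine ⟨r (k : ZMod n), Equiv.ext fun y => ?_⟩
  rcases y with v | ⟨p, x⟩
  · rw [hinl, rho_inl, red_r, cast_nat, (ZMod.natCast_eq_zero_iff _ _).mpr hMk]
    change Sum.inl ((1 : DihedralGroup (Mn n)) * v) = _
    rw [one_mul]
  · rw [hc, rho_inr, actZ_r, cast_nat, hk p, hconst p 0 x]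

theorem tc {n : ℕ} (hn : n ≠ 0) (h4 : ¬ 4 ∣ n)
    (hodd : ∀ p : ℕ, p.Prime → p ≠ 2 → p ∣ n → p ^ 2 ∣ n) : TwoClosed (rho n) := by
  intro π hπ
  obtain ⟨g0, hg0, _⟩ := hπ (Sum.inl 1) (Sum.inl 1)
  obtain ⟨g, hg⟩ := tc1 hn h4 hodd ((rho n g0)⁻¹ * π) (by
      intro x y
      obtain ⟨g, h1, h2⟩ := hπ x y
      refine ⟨g0⁻¹ * g, ?_, ?_⟩
      · rw [map_mul, map_inv, Equiv.Perm.mul_apply, Equiv.Perm.mul_apply, h1]
      · rw [map_mul, map_inv, Equiv.Perm.mul_apply, Equiv.Perm.mul_apply, h2]) (by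
      rw [Equiv.Perm.mul_apply, ← hg0, ← Equiv.Perm.mul_apply, inv_mul_cancel]
      rfl)
  exact ⟨g0 * g, by rw [map_mul, hg, mul_inv_cancel_left]⟩

end G1a

open G1a in
theorem s_G1a : S_G1a := by
  intro n hn2 h4 hodd
  have hn : n ≠ 0 := by omega
  haveI : NeZero (Mn n) := ⟨by
    intro h
    have := prodM n
    rw [h, zero_mul] at this
    exact hn this.symm⟩
  haveI : ∀ p : n.primeFactors, NeZero (e n p) := fun p =>
    ⟨pow_ne_zero _ (Nat.prime_of_mem_primeFactors p.2).ne_zero⟩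
  haveI : Finite (XX n) := by
    haveI : Finite (DihedralGroup (Mn n)) := inferInstance
    haveI : ∀ p : n.primeFactors, Finite (ZMod (e n p)) := fun p => inferInstance
    infer_instance
  exact ⟨XX n, Fintype.ofFinite _, ⟨Sum.inl 1⟩, rho n, inj hn, tc hn h4 hodd,
    fun B hB => base hn B hB⟩

end R624DB
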