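import Pool.Agent.R624.DB.Defs

/-!
# The piece (G1b): a 2-closed action of the dihedral group of large base size
-/

set_option autoImplicit false

namespace R624DB
namespace G1b

/-- the exact prime power -/
abbrev pe (n : ℕ) (p : n.primeFactors) : ℕ := (p : ℕ) ^ n.factorization p

/-- the exact prime power divided by the prime -/
abbrev pe' (n : ℕ) (p : n.primeFactors) : ℕ := (p : ℕ) ^ (n.factorization p - 1)

theorem prime_of (n : ℕ) (p : n.primeFactors) : (p : ℕ).Prime := Nat.prime_of_mem_primeFactors p.2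

theorem pe_dvd (n : ℕ) (p : n.primeFactors) : pe n p ∣ n := Nat.ordProj_dvd n p

theorem pe'_dvd_pe (n : ℕ) (p : n.primeFactors) : pe' n p ∣ pe n p :=
  pow_dvd_pow _ (Nat.sub_le _ _)

instance neZero_pe (n : ℕ) (p : n.primeFactors) : NeZero (pe n p) :=
  ⟨pow_ne_zero _ (prime_of n p).ne_zero⟩

/-- `n` divided by its radical -/
def MM (n : ℕ) : ℕ := ∏ p ∈ n.primeFactors, p ^ (n.factorization p - 1)

instance neZero_MM (n : ℕ) : NeZero (MM n) :=
  ⟨Finset.prod_ne_zero_iff.2 fun _ hp => pow_ne_zero _ (Nat.prime_of_mem_primeFactors hp).ne_zero⟩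

theorem pe'_dvd_MM (n : ℕ) (p : n.primeFactors) : pe' n p ∣ MM n :=
  Finset.dvd_prod_of_mem (fun p => p ^ (n.factorization p - 1)) p.2

theorem MM_mul {n : ℕ} (hn : n ≠ 0) : MM n * ∏ p ∈ n.primeFactors, p = n := by
  conv_rhs => rw [← Nat.prod_factorization_pow_eq_self hn]
  rw [MM, ← Finset.prod_mul_distrib, Nat.prod_factorization_eq_prod_primeFactors]
  refine Finset.prod_congr rfl fun p hp => ?_
  have h1 : 0 < n.factorization p :=
    (Nat.prime_of_mem_primeFactors hp).factorization_pos_of_dvd hn (Nat.dvd_of_mem_primeFactors hp)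
  rw [← pow_succ, Nat.sub_add_cancel h1]

theorem MM_dvd {n : ℕ} (hn : n ≠ 0) : MM n ∣ n := ⟨_, (MM_mul hn).symm⟩

theorem MM_mul_dvd {n : ℕ} (hn : n ≠ 0) (p : n.primeFactors) : MM n ∣ n / p := by
  have h1 : (p : ℕ) ∣ ∏ p ∈ n.primeFactors, p := Finset.dvd_prod_of_mem (fun p => p) p.2
  obtain ⟨c, hc⟩ := h1
  refine ⟨c, ?_⟩
  have h2 : n = (MM n * c) * p := by
    conv_lhs => rw [← MM_mul hn, hc]
    ring
  exact Nat.div_eq_of_eq_mul_left (prime_of n p).pos h2

theorem coprime_pow {n : ℕ} (f : ℕ → ℕ) :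
    (n.primeFactors : Set ℕ).Pairwise (Function.onFun Nat.Coprime fun p => p ^ f p) := by
  intro p hp q hq hpq
  exact Nat.Coprime.pow _ _ ((Nat.coprime_primes (Nat.prime_of_mem_primeFactors hp)
    (Nat.prime_of_mem_primeFactors hq)).2 hpq)

theorem dvd_of_forall {n : ℕ} (f : ℕ → ℕ) (k : ℤ)
    (h : ∀ p ∈ n.primeFactors, ((p ^ f p : ℕ) : ℤ) ∣ k) :
    ((∏ p ∈ n.primeFactors, p ^ f p : ℕ) : ℤ) ∣ k := by
  rw [Nat.cast_prod]
  refine Finset.prod_dvd_of_coprime ?_ h
  intro p hp q hq hpq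
  exact Nat.isCoprime_iff_coprime.2 (coprime_pow f hp hq hpq)

theorem cast_eq {n : ℕ} (hn : n ≠ 0) (k : ℤ)
    (h : ∀ p : n.primeFactors, (k : ZMod (pe n p)) = 0) : (k : ZMod n) = 0 := by
  rw [ZMod.intCast_zmod_eq_zero_iff_dvd]
  have h1 := dvd_of_forall (n := n) (fun p => n.factorization p) k fun p hp =>
    (ZMod.intCast_zmod_eq_zero_iff_dvd _ _).1 (h ⟨p, hp⟩)
  rwa [← Nat.prod_factorization_eq_prod_primeFactors, Nat.prod_factorization_pow_eq_self hn] at h1

theorem cast_eq' {n : ℕ} (k : ℤ)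
    (h : ∀ p : n.primeFactors, (k : ZMod (pe' n p)) = 0) : (k : ZMod (MM n)) = 0 := by
  rw [ZMod.intCast_zmod_eq_zero_iff_dvd]
  exact dvd_of_forall (n := n) (fun p => n.factorization p - 1) k fun p hp =>
    (ZMod.intCast_zmod_eq_zero_iff_dvd _ _).1 (h ⟨p, hp⟩)

/-- Chinese remainder theorem -/
theorem crt (n : ℕ) (c : (p : n.primeFactors) → ZMod (pe n p)) :
    ∃ k : ℤ, ∀ p, (k : ZMod (pe n p)) = c p := by
  classical
  obtain ⟨k, hk⟩ := Nat.chineseRemainderOfFinset
    (fun p => if h : p ∈ n.primeFactors then (c ⟨p, h⟩).val else 0)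
    (fun p => p ^ n.factorization p) n.primeFactors
    (fun p hp => pow_ne_zero _ (Nat.prime_of_mem_primeFactors hp).ne_zero) (coprime_pow _)
  refine ⟨k, fun p => ?_⟩
  have h1 := hk p p.2
  rw [dif_pos p.2] at h1
  have h2 := (ZMod.natCast_eq_natCast_iff _ _ _).2 h1
  rw [ZMod.natCast_zmod_val] at h2
  rw [Int.cast_natCast]
  exact h2

/-- vertices or edges -/
def hB (b : Bool) (m : ℕ) : ZMod m := if b then 1 else 0

/-- the set -/
abbrev XX (n : ℕ) : Type :=
  DihedralGroup (MM n) ⊕ (Σ i : n.primeFactors × Bool, ZMod (pe n i.1))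

/-- the action -/
def rho (n : ℕ) (hn : n ≠ 0) : DihedralGroup n →* Equiv.Perm (XX n) :=
  (Equiv.Perm.sumCongrHom _ _).comp
    (MonoidHom.prod
      ((MulAction.toPermHom (DihedralGroup (MM n)) (DihedralGroup (MM n))).comp (red (MM_dvd hn)))
      ((Equiv.Perm.sigmaCongrRightHom fun i : n.primeFactors × Bool => ZMod (pe n i.1)).comp
        (MonoidHom.pi fun i => actZ (pe_dvd n i.1) (hB i.2 _))))

variable {n : ℕ} (hn : n ≠ 0)

theorem rho_inl (g : DihedralGroup n) (w : DihedralGroup (MM n)) :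
    rho n hn g (Sum.inl w) = Sum.inl (red (MM_dvd hn) g * w) := rfl

theorem rho_inr (g : DihedralGroup n) (i : n.primeFactors × Bool) (x : ZMod (pe n i.1)) :
    rho n hn g (Sum.inr ⟨i, x⟩) = Sum.inr ⟨i, actZ (pe_dvd n i.1) (hB i.2 _) g x⟩ := rfl

theorem red_r (k : ℤ) {m : ℕ} (h : m ∣ n) :
    red h (DihedralGroup.r (k : ZMod n)) = DihedralGroup.r (k : ZMod m) := by
  change DihedralGroup.r (ZMod.castHom h (ZMod m) (k : ZMod n)) = _
  rw [map_intCast]

theorem red_sr (k : ℤ) {m : ℕ} (h : m ∣ n) :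
    red h (DihedralGroup.sr (k : ZMod n)) = DihedralGroup.sr (k : ZMod m) := by
  change DihedralGroup.sr (ZMod.castHom h (ZMod m) (k : ZMod n)) = _
  rw [map_intCast]

theorem act_r (k : ℤ) {m : ℕ} (h : m ∣ n) (c x : ZMod m) :
    actZ h c (DihedralGroup.r (k : ZMod n)) x = x + k := by
  change x + (ZMod.castHom h (ZMod m) (k : ZMod n)) = _
  rw [map_intCast]

theorem act_sr (k : ℤ) {m : ℕ} (h : m ∣ n) (c x : ZMod m) :
    actZ h c (DihedralGroup.sr (k : ZMod n)) x = - k - x - c := by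
  change - (ZMod.castHom h (ZMod m) (k : ZMod n)) - x - c = _
  rw [map_intCast]

theorem cases_int (g : DihedralGroup n) :
    ∃ k : ℤ, g = DihedralGroup.r (k : ZMod n) ∨ g = DihedralGroup.sr (k : ZMod n) := by
  rcases g with a | a
  · obtain ⟨k, rfl⟩ := ZMod.intCast_surjective a
    exact ⟨k, Or.inl rfl⟩
  · obtain ⟨k, rfl⟩ := ZMod.intCast_surjective a
    exact ⟨k, Or.inr rfl⟩

theorem injective : Function.Injective (rho n hn) := by
  rw [injective_iff_map_eq_one]
  intro g hg
  obtain ⟨k, rfl | rfl⟩ := cases_int g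
  · have h1 : (k : ZMod n) = 0 := by
      refine cast_eq hn k fun p => ?_
      have h2 : rho n hn (DihedralGroup.r (k : ZMod n)) (Sum.inr ⟨(p, false), 0⟩) =
        Sum.inr ⟨(p, false), 0⟩ := by rw [hg]; rfl
      rw [rho_inr, act_r] at h2
      have h3 := Sigma.mk.inj (Sum.inr.inj h2)
      have h4 := eq_of_heq h3.2
      simpa using h4
    rw [h1]
    rfl
  · exfalso
    have h2 : rho n hn (DihedralGroup.sr (k : ZMod n)) (Sum.inl 1) = Sum.inl 1 := by rw [hg]; rfl
    rw [rho_inl, red_sr, mul_one] at h2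
    have h3 := Sum.inl.inj h2
    cases h3

/-- rotations and reflections together -/
def el (m : ℕ) (T : Bool) (k : ℤ) : DihedralGroup m := if T then .sr (k : ZMod m) else .r (k : ZMod m)

theorem red_el (T : Bool) (k : ℤ) {m : ℕ} (h : m ∣ n) : red h (el n T k) = el m T k := by
  cases T
  · exact red_r k h
  · exact red_sr k h

theorem el_inj {m : ℕ} {T T' : Bool} {k k' : ℤ} (h : el m T k = el m T' k') :
    T = T' ∧ (k : ZMod m) = k' := by
  cases T <;> cases T' <;> simp [el] at h ⊢ <;> exact h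

theorem cases_el (g : DihedralGroup n) : ∃ (T : Bool) (k : ℤ), g = el n T k := by
  obtain ⟨k, h | h⟩ := cases_int g
  · exact ⟨false, k, h⟩
  · exact ⟨true, k, h⟩

theorem act_el_congr {T : Bool} {k k' : ℤ} {m : ℕ} (h : m ∣ n) (c x : ZMod m)
    (hk : (k : ZMod m) = k') : actZ h c (el n T k) x = actZ h c (el n T k') x := by
  cases T
  · rw [show el n false k = .r (k : ZMod n) from rfl, show el n false k' = .r (k' : ZMod n) from rfl,
      act_r, act_r, hk]
  · rw [show el n true k = .sr (k : ZMod n) from rfl, show el n true k' = .sr (k' : ZMod n) from rfl,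
      act_sr, act_sr, hk]

theorem act_el_inj {T : Bool} {k k' : ℤ} {m : ℕ} (h : m ∣ n) (c x : ZMod m)
    (hk : actZ h c (el n T k) x = actZ h c (el n T k') x) : (k : ZMod m) = k' := by
  cases T
  · rw [show el n false k = .r (k : ZMod n) from rfl, show el n false k' = .r (k' : ZMod n) from rfl,
      act_r, act_r] at hk
    exact add_left_cancel hk
  · rw [show el n true k = .sr (k : ZMod n) from rfl, show el n true k' = .sr (k' : ZMod n) from rfl,
      act_sr, act_sr] at hk
    have h1 := sub_left_injective (sub_left_injective hk)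
    exact neg_injective h1

theorem inr_inj {i : n.primeFactors × Bool} {x y : ZMod (pe n i.1)}
    (h : (Sum.inr ⟨i, x⟩ : XX n) = Sum.inr ⟨i, y⟩) : x = y :=
  eq_of_heq (Sigma.mk.inj (Sum.inr.inj h)).2

theorem cast_pe' {k k' : ℤ} (p : n.primeFactors) (h : (k : ZMod (MM n)) = k') :
    (k : ZMod (pe' n p)) = k' := by
  have h1 := congrArg (ZMod.castHom (pe'_dvd_MM n p) (ZMod (pe' n p))) h
  rwa [map_intCast, map_intCast] at h1

theorem other {T T' : Bool} (hT : T' ≠ T) {p : n.primeFactors} {a b c : ℤ} (x y : ZMod (pe n p))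
    (h1 : actZ (pe_dvd n p) (hB false _) (el n T' c) x =
      actZ (pe_dvd n p) (hB false _) (el n T a) x)
    (h2 : actZ (pe_dvd n p) (hB true _) (el n T' c) y =
      actZ (pe_dvd n p) (hB true _) (el n T b) y) :
    (a : ZMod (pe n p)) - b = 2 * y + 1 - 2 * x := by
  have e1 : ∀ (k : ℤ) (d : ZMod (pe n p)) (z : ZMod (pe n p)),
      actZ (pe_dvd n p) d (el n false k) z = z + k := fun k d z => act_r k _ d z
  have e2 : ∀ (k : ℤ) (d : ZMod (pe n p)) (z : ZMod (pe n p)),
      actZ (pe_dvd n p) d (el n true k) z = - k - z - d := fun k d z => act_sr k _ d z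
  have e3 : hB false (pe n p) = 0 := rfl
  have e4 : hB true (pe n p) = 1 := rfl
  rw [e3] at h1
  rw [e4] at h2
  cases T <;> cases T'
  · exact absurd rfl hT
  · rw [e1, e2] at h1 h2
    linear_combination h2 - h1
  · rw [e1, e2] at h1 h2
    linear_combination h1 - h2
  · exact absurd rfl hT

theorem twoClosed (hv : ∀ p : n.primeFactors, 2 ≤ n.factorization p) : TwoClosed (rho n hn) := by
  intro π hπ
  obtain ⟨g0, hg0, -⟩ := hπ (Sum.inl 1) (Sum.inl 1)
  obtain ⟨T, k0, rfl⟩ := cases_el g0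
  have hpair : ∀ z : XX n, ∃ a : ℤ, (a : ZMod (MM n)) = k0 ∧ rho n hn (el n T a) z = π z := by
    intro z
    obtain ⟨g, h1, h2⟩ := hπ (Sum.inl 1) z
    obtain ⟨T', a, rfl⟩ := cases_el g
    rw [← hg0, rho_inl, rho_inl, mul_one, mul_one, red_el, red_el] at h1
    obtain ⟨h3, h4⟩ := el_inj (Sum.inl.inj h1)
    subst h3
    exact ⟨a, h4, h2⟩
  choose a ha0 ha using hpair
  have hkey : ∀ (p : n.primeFactors) (x y : ZMod (pe n p)),
      ZMod.castHom (pe'_dvd_pe n p) (ZMod (pe' n p)) (2 * y + 1 - 2 * x) ≠ 0 →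
      (a (Sum.inr ⟨(p, false), x⟩) : ZMod (pe n p)) = a (Sum.inr ⟨(p, true), y⟩) := by
    intro p x y hne
    obtain ⟨g, h1, h2⟩ := hπ (Sum.inr ⟨(p, false), x⟩) (Sum.inr ⟨(p, true), y⟩)
    obtain ⟨T', c, rfl⟩ := cases_el g
    rw [← ha, rho_inr, rho_inr] at h1 h2
    have h1' := inr_inj h1
    have h2' := inr_inj h2
    by_cases hT : T' = T
    · subst hT
      rw [← act_el_inj _ _ _ h1', ← act_el_inj _ _ _ h2']
    · exfalso
      apply hne
      rw [← other hT x y h1' h2', map_sub, map_intCast, map_intCast, sub_eq_zero]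
      rw [cast_pe' p (ha0 _), cast_pe' p (ha0 _)]
  have hnt : ∀ p : n.primeFactors, (1 : ZMod (pe' n p)) ≠ 0 := by
    intro p
    have h1 : 1 < pe' n p := Nat.one_lt_pow (by have := hv p; omega) (prime_of n p).one_lt
    haveI : Fact (1 < pe' n p) := ⟨h1⟩
    exact one_ne_zero
  have hc1 : ∀ (p : n.primeFactors) (y : ZMod (pe n p)),
      (a (Sum.inr ⟨(p, false), y⟩) : ZMod (pe n p)) = a (Sum.inr ⟨(p, true), y⟩) := by
    intro p y
    refine hkey p y y ?_
    rw [show 2 * y + 1 - 2 * y = 1 by ring, map_one]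
    exact hnt p
  have hc2 : ∀ (p : n.primeFactors) (x x' : ZMod (pe n p)),
      (a (Sum.inr ⟨(p, false), x⟩) : ZMod (pe n p)) = a (Sum.inr ⟨(p, false), x'⟩) := by
    intro p x x'
    set φ := ZMod.castHom (pe'_dvd_pe n p) (ZMod (pe' n p)) with hφ
    by_cases h1 : φ (2 * x + 1 - 2 * x') = 0
    · have e1 := hkey p x (x - 1) (by
        rw [← hφ, show 2 * (x - 1) + 1 - 2 * x = -1 by ring, map_neg, map_one, neg_ne_zero]
        exact hnt p)
      have e2 := hkey p x' (x - 1) (by
        rw [← hφ, show 2 * (x - 1) + 1 - 2 * x' = (2 * x + 1 - 2 * x') - 2 by ring, map_sub, h1,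
          zero_sub, neg_ne_zero]
        intro h2
        apply hnt p
        have h3 : φ (2 * x + 1 - 2 * x') = φ 2 * φ (x - x') + 1 := by
          rw [← map_mul, ← map_one φ, ← map_add]
          congr 1
          ring
        rw [h1, h2, zero_mul, zero_add] at h3
        exact h3.symm)
      rw [e1, e2]
    · rw [hc1 p x]
      exact (hkey p x' x h1).symm
  obtain ⟨k, hk⟩ := crt n fun p => (a (Sum.inr ⟨(p, false), 0⟩) : ZMod (pe n p))
  have hk0 : (k : ZMod (MM n)) = k0 := by
    rw [← sub_eq_zero, ← Int.cast_sub]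
    refine cast_eq' _ fun p => ?_
    have h1 := congrArg (ZMod.castHom (pe'_dvd_pe n p) (ZMod (pe' n p))) (hk p)
    rw [map_intCast, map_intCast, cast_pe' p (ha0 _)] at h1
    rw [Int.cast_sub, h1, sub_self]
  refine ⟨el n T k, ?_⟩
  ext z
  rw [← ha z]
  rcases z with v | ⟨⟨p, b⟩, x⟩
  · rw [rho_inl, rho_inl, red_el, red_el]
    have h1 : el (MM n) T k = el (MM n) T (a (Sum.inl v)) := by
      have h2 := ha0 (Sum.inl v)
      cases T
      · change DihedralGroup.r _ = DihedralGroup.r _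
        rw [hk0, h2]
      · change DihedralGroup.sr _ = DihedralGroup.sr _
        rw [hk0, h2]
    rw [h1]
  · rw [rho_inr, rho_inr]
    rw [act_el_congr (k' := a (Sum.inr ⟨(p, b), x⟩))]
    rw [hk p]
    cases b
    · exact hc2 p _ _
    · rw [← hc1 p x]
      exact hc2 p _ _

theorem base_large (B : Finset (XX n)) (hB' : IsBase (rho n hn) B) :
    n.primeFactors.card + 1 ≤ B.card := by
  classical
  by_contra hlt
  have hlt' : B.card ≤ n.primeFactors.card := by omega
  have hex : ∀ p : n.primeFactors, ∃ (b : Bool) (y : ZMod (pe n p)),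
      (Sum.inr ⟨(p, b), y⟩ : XX n) ∈ B := by
    intro p
    by_contra hno
    push Not at hno
    have hp := prime_of n p
    have hpn : (p : ℕ) ∣ n := Nat.dvd_of_mem_primeFactors p.2
    have h1 : DihedralGroup.r (((n / p : ℕ) : ℤ) : ZMod n) = 1 := by
      apply hB'
      intro z hz
      rcases z with v | ⟨⟨q, b⟩, x⟩
      · rw [rho_inl, red_r]
        have h2 : (((n / p : ℕ) : ℤ) : ZMod (MM n)) = 0 := by
          rw [Int.cast_natCast, ZMod.natCast_eq_zero_iff]
          exact MM_mul_dvd hn p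
        rw [h2, DihedralGroup.r_zero, one_mul]
      · by_cases hqp : q = p
        · subst hqp
          exact absurd hz (hno b x)
        · rw [rho_inr, act_r]
          have h2 : (((n / p : ℕ) : ℤ) : ZMod (pe n q)) = 0 := by
            rw [Int.cast_natCast, ZMod.natCast_eq_zero_iff]
            have h3 : Nat.Coprime (pe n q) p := by
              apply Nat.Coprime.pow_left
              exact (Nat.coprime_primes (prime_of n q) hp).2 fun h => hqp (Subtype.ext h)
            refine h3.dvd_of_dvd_mul_right ?_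
            rw [Nat.div_mul_cancel hpn]
            exact pe_dvd n q
          rw [h2, add_zero]
    rw [← DihedralGroup.r_zero] at h1
    have h2 := DihedralGroup.r.inj h1
    rw [Int.cast_natCast, ZMod.natCast_eq_zero_iff] at h2
    have h3 := Nat.le_of_dvd (Nat.div_pos (Nat.le_of_dvd (Nat.pos_of_ne_zero hn) hpn) hp.pos) h2
    have h4 := Nat.div_lt_self (Nat.pos_of_ne_zero hn) hp.one_lt
    omega
  choose b y hby using hex
  have himg : B = Finset.univ.image fun p : n.primeFactors => (Sum.inr ⟨(p, b p), y p⟩ : XX n) := by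
    symm
    apply Finset.eq_of_subset_of_card_le
    · intro z hz
      obtain ⟨p, -, rfl⟩ := Finset.mem_image.1 hz
      exact hby p
    · rw [Finset.card_image_of_injective, Finset.card_univ, Fintype.card_coe]
      · exact hlt'
      · intro p q h
        have h1 := (Sigma.mk.inj (Sum.inr.inj h)).1
        exact (Prod.mk.inj h1).1
  obtain ⟨k, hk⟩ := crt n fun p => - 2 * y p - hB (b p) _
  have h1 : DihedralGroup.sr (k : ZMod n) = 1 := by
    apply hB'
    intro z hz
    rw [himg] at hz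
    obtain ⟨p, -, rfl⟩ := Finset.mem_image.1 hz
    rw [rho_inr, act_sr]
    have h2 : - (k : ZMod (pe n p)) - y p - hB (b p) _ = y p := by
      rw [hk p]
      ring
    exact congrArg (fun t => (Sum.inr ⟨(p, b p), t⟩ : XX n)) h2
  rw [DihedralGroup.one_def] at h1
  cases h1

end G1b

/-- (G1b) -/
theorem s_G1b : S_G1b := by
  intro n hn2 h4 hodd
  have hn : n ≠ 0 := by omega
  refine ⟨G1b.XX n, inferInstance, ⟨Sum.inl 1⟩, G1b.rho n hn, G1b.injective hn,
    G1b.twoClosed hn ?_, G1b.base_large hn⟩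
  intro p
  have hp := G1b.prime_of n p
  rw [← hp.pow_dvd_iff_le_factorization hn]
  by_cases h2 : (p : ℕ) = 2
  · rw [h2]
    exact h4
  · exact hodd p hp h2 (Nat.dvd_of_mem_primeFactors p.2)

end R624DB
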