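import Pool.Agent.R624.DB.Defs

/-!
# Base size sets of dihedral groups: the case `n = p` and `n = 2 p` (piece G2)
-/

set_option autoImplicit false

namespace R624DB

namespace G2x

theorem castHom_self_apply {n : ℕ} (a : ZMod n) : ZMod.castHom (dvd_refl n) (ZMod n) a = a := by
  have : ZMod.castHom (dvd_refl n) (ZMod n) = RingHom.id _ := Subsingleton.elim _ _
  rw [this]; rfl

theorem crt_surj {m k : ℕ} (h : m.Coprime k) (h1 : m ∣ m * k) (h2 : k ∣ m * k) (a : ZMod m)
    (b : ZMod k) : ∃ c : ZMod (m * k), ZMod.castHom h1 (ZMod m) c = a ∧ ZMod.castHom h2 (ZMod k) c = b := by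
  refine ⟨(ZMod.chineseRemainder h).symm (a, b), ?_, ?_⟩
  · have : ZMod.castHom h1 (ZMod m) =
        (RingHom.fst (ZMod m) (ZMod k)).comp (ZMod.chineseRemainder h).toRingHom :=
      Subsingleton.elim _ _
    rw [this]
    simp
  · have : ZMod.castHom h2 (ZMod k) =
        (RingHom.snd (ZMod m) (ZMod k)).comp (ZMod.chineseRemainder h).toRingHom :=
      Subsingleton.elim _ _
    rw [this]
    simp

theorem crt_inj {m k : ℕ} (h : m.Coprime k) (h1 : m ∣ m * k) (h2 : k ∣ m * k) (c : ZMod (m * k))
    (e1 : ZMod.castHom h1 (ZMod m) c = 0) (e2 : ZMod.castHom h2 (ZMod k) c = 0) : c = 0 := by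
  have t1 : ZMod.castHom h1 (ZMod m) =
      (RingHom.fst (ZMod m) (ZMod k)).comp (ZMod.chineseRemainder h).toRingHom :=
    Subsingleton.elim _ _
  have t2 : ZMod.castHom h2 (ZMod k) =
      (RingHom.snd (ZMod m) (ZMod k)).comp (ZMod.chineseRemainder h).toRingHom :=
    Subsingleton.elim _ _
  apply (ZMod.chineseRemainder h).injective
  rw [map_zero]
  apply Prod.ext
  · rw [t1] at e1; exact e1
  · rw [t2] at e2; exact e2

theorem two_ne {p : ℕ} (hp : p.Prime) (hp2 : p ≠ 2) : (2 : ZMod p) ≠ 0 := by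
  intro h
  have h1 : ((2 : ℕ) : ZMod p) = 0 := by exact_mod_cast h
  rw [ZMod.natCast_eq_zero_iff] at h1
  exact hp2 ((Nat.prime_dvd_prime_iff_eq hp Nat.prime_two).1 h1)

theorem affine {p : ℕ} [Fact p.Prime] (hp2 : p ≠ 2) (f : ZMod p → ZMod p)
    (h : ∀ x y, f x - f y = x - y ∨ f x - f y = -(x - y)) :
    (∀ x, f x = x + f 0) ∨ ∀ x, f x = f 0 - x := by
  have h2 := two_ne (Fact.out : p.Prime) hp2
  rcases h 1 0 with h1 | h1
  · left
    intro x
    rcases h x 0 with hx | hx
    · linear_combination hx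
    · rcases h x 1 with hy | hy
      · have : (2 : ZMod p) * x = 0 := by linear_combination hx - hy - h1
        rcases mul_eq_zero.1 this with h3 | h3
        · exact absurd h3 h2
        · rw [h3]; ring
      · exfalso
        apply h2
        linear_combination hx - hy - h1
  · right
    intro x
    rcases h x 0 with hx | hx
    · rcases h x 1 with hy | hy
      · have : (2 : ZMod p) = 0 := by linear_combination hy - hx + h1
        exact absurd this h2
      · have : (2 : ZMod p) * x = 0 := by linear_combination hy - hx + h1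
        rcases mul_eq_zero.1 this with h3 | h3
        · exact absurd h3 h2
        · rw [h3]; ring
    · linear_combination hx

theorem actZ_r {n m : ℕ} (hd : m ∣ n) (a : ZMod n) (x : ZMod m) :
    actZ hd 0 (.r a) x = x + ZMod.castHom hd (ZMod m) a := rfl

theorem actZ_sr {n m : ℕ} (hd : m ∣ n) (a : ZMod n) (x : ZMod m) :
    actZ hd 0 (.sr a) x = - ZMod.castHom hd (ZMod m) a - x := by
  show - ZMod.castHom hd (ZMod m) a - x - 0 = _
  rw [sub_zero]

theorem sr_ne_one {n : ℕ} (a : ZMod n) : (DihedralGroup.sr a : DihedralGroup n) ≠ 1 := by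
  intro h
  rw [DihedralGroup.one_def] at h
  cases h

/-- a permutation that agrees with the action on all pairs is affine -/
theorem pair_affine {n p : ℕ} [Fact p.Prime] (hp2 : p ≠ 2) (hd : p ∣ n) (f : ZMod p → ZMod p)
    (h : ∀ x y, ∃ g : DihedralGroup n, actZ hd 0 g x = f x ∧ actZ hd 0 g y = f y) :
    (∀ x, f x = x + f 0) ∨ ∀ x, f x = f 0 - x := by
  apply affine hp2
  intro x y
  obtain ⟨g, h1, h2⟩ := h x y
  rcases g with a | a
  · left
    rw [← h1, ← h2, actZ_r, actZ_r]; ring
  · right
    rw [← h1, ← h2, actZ_sr, actZ_sr]; ring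

theorem case1 (p : ℕ) (hp : p.Prime) (hp2 : p ≠ 2) :
    ∃ (X : Type) (_ : Fintype X) (_ : Nonempty X) (ρ : DihedralGroup p →* Equiv.Perm X),
    Function.Injective ρ ∧ TwoClosed ρ ∧ ∀ B, IsBase ρ B → p.primeFactors.card + 1 ≤ B.card := by
  classical
  have : Fact p.Prime := ⟨hp⟩
  have h2 := two_ne hp hp2
  refine ⟨ZMod p, inferInstance, ⟨0⟩, actZ (dvd_refl p) 0, ?_, ?_, ?_⟩
  · rw [injective_iff_map_eq_one]
    rintro (a | a) h
    · have h1 := congrArg (fun π : Equiv.Perm (ZMod p) => π 0) h
      simp only [Equiv.Perm.coe_one, id_eq] at h1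
      rw [actZ_r, castHom_self_apply, zero_add] at h1
      rw [h1]; rfl
    · exfalso
      have h1 := congrArg (fun π : Equiv.Perm (ZMod p) => π 0) h
      have h3 := congrArg (fun π : Equiv.Perm (ZMod p) => π 1) h
      simp only [Equiv.Perm.coe_one, id_eq] at h1 h3
      rw [actZ_sr] at h1 h3
      apply h2
      linear_combination h1 - h3
  · intro π hπ
    rcases pair_affine hp2 (dvd_refl p) π hπ with h | h
    · refine ⟨.r (π 0), ?_⟩
      ext x
      rw [actZ_r, castHom_self_apply, h x]
    · refine ⟨.sr (-(π 0)), ?_⟩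
      ext x
      rw [actZ_sr, castHom_self_apply, h x, neg_neg]
  · intro B hB
    rw [hp.primeFactors, Finset.card_singleton]
    by_contra hcon
    have hc : B.card ≤ 1 := by omega
    obtain ⟨x, hx⟩ : ∃ x, ∀ y ∈ B, y = x := by
      rcases Finset.card_le_one_iff_subset_singleton.1 hc with ⟨x, hx⟩
      exact ⟨x, fun y hy => Finset.mem_singleton.1 (hx hy)⟩
    apply sr_ne_one (n := p) (-(2 * x))
    apply hB
    intro y hy
    rw [hx y hy, actZ_sr, castHom_self_apply]
    ring

/-- the action for `n = 2 p` -/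
def rho2 (p : ℕ) : DihedralGroup (p * 2) →* Equiv.Perm (ZMod p ⊕ ZMod 2) :=
  (Equiv.Perm.sumCongrHom (ZMod p) (ZMod 2)).comp
    ((actZ (Dvd.intro 2 rfl) 0).prod (actZ (Dvd.intro_left p rfl) 0))

theorem rho2_inl (p : ℕ) (g : DihedralGroup (p * 2)) (x : ZMod p) :
    rho2 p g (.inl x) = .inl (actZ (Dvd.intro 2 rfl) 0 g x) := rfl

theorem rho2_inr (p : ℕ) (g : DihedralGroup (p * 2)) (x : ZMod 2) :
    rho2 p g (.inr x) = .inr (actZ (Dvd.intro_left p rfl) 0 g x) := rfl

theorem case2 (p : ℕ) (hp : p.Prime) (hp2 : p ≠ 2) :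
    ∃ (X : Type) (_ : Fintype X) (_ : Nonempty X) (ρ : DihedralGroup (p * 2) →* Equiv.Perm X),
    Function.Injective ρ ∧ TwoClosed ρ ∧ ∀ B, IsBase ρ B → (p * 2).primeFactors.card + 1 ≤ B.card := by
  classical
  have : Fact p.Prime := ⟨hp⟩
  have h2 := two_ne hp hp2
  have hco : p.Coprime 2 := (Nat.coprime_primes hp Nat.prime_two).2 hp2
  have hd1 : p ∣ p * 2 := Dvd.intro 2 rfl
  have hd2 : 2 ∣ p * 2 := Dvd.intro_left p rfl
  refine ⟨ZMod p ⊕ ZMod 2, inferInstance, ⟨.inl 0⟩, rho2 p, ?_, ?_, ?_⟩
  · rw [injective_iff_map_eq_one]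
    rintro (a | a) h
    · have h1 := congrArg (fun π : Equiv.Perm (ZMod p ⊕ ZMod 2) => π (.inl 0)) h
      have h3 := congrArg (fun π : Equiv.Perm (ZMod p ⊕ ZMod 2) => π (.inr 0)) h
      simp only [Equiv.Perm.coe_one, id_eq] at h1 h3
      rw [rho2_inl, actZ_r, zero_add] at h1
      rw [rho2_inr, actZ_r, zero_add] at h3
      rw [crt_inj hco hd1 hd2 a (Sum.inl_injective h1) (Sum.inr_injective h3)]
      rfl
    · exfalso
      have h1 := congrArg (fun π : Equiv.Perm (ZMod p ⊕ ZMod 2) => π (.inl 0)) h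
      have h3 := congrArg (fun π : Equiv.Perm (ZMod p ⊕ ZMod 2) => π (.inl 1)) h
      simp only [Equiv.Perm.coe_one, id_eq] at h1 h3
      rw [rho2_inl, actZ_sr] at h1 h3
      have h1' := Sum.inl_injective h1
      have h3' := Sum.inl_injective h3
      apply h2
      linear_combination h1' - h3'
  · intro π hπ
    have hl : ∀ x, ∃ y, π (.inl x) = .inl y := by
      intro x
      obtain ⟨g, h1, _⟩ := hπ (.inl x) (.inl x)
      exact ⟨_, by rw [← h1, rho2_inl]⟩
    have hr : ∀ x, ∃ y, π (.inr x) = .inr y := by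
      intro x
      obtain ⟨g, h1, _⟩ := hπ (.inr x) (.inr x)
      exact ⟨_, by rw [← h1, rho2_inr]⟩
    choose f hf using hl
    choose e he using hr
    have hfa : (∀ x, f x = x + f 0) ∨ ∀ x, f x = f 0 - x := by
      apply pair_affine hp2 hd1
      intro x y
      obtain ⟨g, h1, h3⟩ := hπ (.inl x) (.inl y)
      rw [rho2_inl, hf] at h1 h3
      exact ⟨g, Sum.inl_injective h1, Sum.inl_injective h3⟩
    have hea : ∀ x, e x = x + e 0 := by
      have hne : e 1 ≠ e 0 := by
        intro h
        have h3 : π (.inr 1) = π (.inr 0) := by rw [he, he, h]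
        have h4 := Sum.inr_injective (π.injective h3)
        exact absurd h4 (by decide)
      have key : ∀ u v : ZMod 2, u ≠ v → u = 1 + v := by decide
      intro x
      have hx : x = 0 ∨ x = 1 := by
        revert x; decide
      rcases hx with rfl | rfl
      · rw [zero_add]
      · exact key _ _ hne
    obtain ⟨c, hc1, hc2⟩ := crt_surj hco hd1 hd2 (f 0) (e 0)
    rcases hfa with h | h
    · refine ⟨.r c, ?_⟩
      ext x
      rcases x with x | x
      · rw [rho2_inl, actZ_r, hf, h x, hc1]
      · rw [rho2_inr, actZ_r, he, hea x, hc2]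
    · refine ⟨.sr (-c), ?_⟩
      ext x
      rcases x with x | x
      · rw [rho2_inl, actZ_sr, hf, h x, map_neg, hc1, neg_neg]
      · rw [rho2_inr, actZ_sr, he, hea x, map_neg, hc2, neg_neg]
        have key : ∀ u v : ZMod 2, u - v = v + u := by decide
        rw [key]
  · intro B hB
    have hpf : (p * 2).primeFactors.card = 2 := by
      rw [Nat.primeFactors_mul hp.ne_zero two_ne_zero, hp.primeFactors, Nat.prime_two.primeFactors]
      rw [Finset.card_union_of_disjoint (by simpa using hp2)]
      simp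
    rw [hpf]
    by_contra hcon
    have hc : B.card ≤ 2 := by omega
    have hx : ∃ x, Sum.inl x ∈ B := by
      by_contra hno
      push Not at hno
      obtain ⟨c, hc1, hc2⟩ := crt_surj hco hd1 hd2 1 0
      have h1 : (DihedralGroup.r c : DihedralGroup (p * 2)) = 1 := by
        apply hB
        rintro (x | x) hx
        · exact absurd hx (hno x)
        · rw [rho2_inr, actZ_r, hc2, add_zero]
      have h3 : c = 0 := by
        rw [DihedralGroup.one_def] at h1
        injection h1
      rw [h3, map_zero] at hc1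
      exact zero_ne_one hc1
    have hy : ∃ y, Sum.inr y ∈ B := by
      by_contra hno
      push Not at hno
      obtain ⟨c, hc1, hc2⟩ := crt_surj hco hd1 hd2 0 1
      have h1 : (DihedralGroup.r c : DihedralGroup (p * 2)) = 1 := by
        apply hB
        rintro (x | x) hx
        · rw [rho2_inl, actZ_r, hc1, add_zero]
        · exact absurd hx (hno x)
      have h3 : c = 0 := by
        rw [DihedralGroup.one_def] at h1
        injection h1
      rw [h3, map_zero] at hc2
      exact zero_ne_one hc2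
    obtain ⟨x, hx⟩ := hx
    obtain ⟨y, hy⟩ := hy
    have hBe : ({Sum.inl x, Sum.inr y} : Finset (ZMod p ⊕ ZMod 2)) = B := by
      apply Finset.eq_of_subset_of_card_le
      · intro z hz
        rcases Finset.mem_insert.1 hz with rfl | hz
        · exact hx
        · rw [Finset.mem_singleton.1 hz]; exact hy
      · rw [Finset.card_pair Sum.inl_ne_inr]
        exact hc
    obtain ⟨c, hc1, hc2⟩ := crt_surj hco hd1 hd2 (-(2 * x)) (-(2 * y))
    apply sr_ne_one c
    apply hB
    intro z hz
    rw [← hBe] at hz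
    rcases Finset.mem_insert.1 hz with rfl | hz
    · rw [rho2_inl, actZ_sr, hc1]
      congr 1
      ring
    · rw [Finset.mem_singleton.1 hz, rho2_inr, actZ_sr, hc2]
      congr 1
      ring

end G2x

theorem s_G2 : S_G2 := by
  intro n p hp hp2 hn
  rcases hn with rfl | rfl
  · exact G2x.case1 n hp hp2
  · rw [mul_comm 2 p]
    exact G2x.case2 p hp hp2

end R624DB
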