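import Pool.Agent.R624.DB.Defs

/-!
# DB-gr: 2-closed permutation groups give graphs with the same base size (MP_4c7f2d_al)
-/

set_option autoImplicit false

namespace R624DB

namespace Gr

variable {G X : Type} [Group G]

/-- one direction of the adjacency relation -/
def rel (ρ : G →* Equiv.Perm X) : X × Option (X × X × Bool) → X × Option (X × X × Bool) → Prop
  | (x, none), (y, some _) => x = y
  | (x, some (a, b, false)), (y, some (a', b', true)) =>
      a = a' ∧ b = b' ∧ ∃ g : G, ρ g a = x ∧ ρ g b = y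
  | _, _ => False

/-- the coloured graph -/
def H (ρ : G →* Equiv.Perm X) : SimpleGraph (X × Option (X × X × Bool)) :=
  SimpleGraph.fromRel (rel ρ)

theorem rel_ne {ρ : G →* Equiv.Perm X} {u v : X × Option (X × X × Bool)} (h : rel ρ u v) :
    u ≠ v := by
  rintro rfl
  obtain ⟨x, _ | ⟨a, b, _ | _⟩⟩ := u <;> simp [rel] at h

theorem adj_iff {ρ : G →* Equiv.Perm X} {u v : X × Option (X × X × Bool)} :
    (H ρ).Adj u v ↔ rel ρ u v ∨ rel ρ v u := by
  unfold H
  rw [SimpleGraph.fromRel_adj]
  constructor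
  · exact fun h => h.2
  · rintro (h | h)
    · exact ⟨rel_ne h, Or.inl h⟩
    · exact ⟨(rel_ne h).symm, Or.inr h⟩

/-- the permutation of the vertices given by a group element -/
def act (ρ : G →* Equiv.Perm X) (g : G) : Equiv.Perm (X × Option (X × X × Bool)) :=
  Equiv.prodCongr (ρ g) (Equiv.refl _)

theorem act_apply (ρ : G →* Equiv.Perm X) (g : G) (v : X × Option (X × X × Bool)) :
    act ρ g v = (ρ g v.1, v.2) := rfl

theorem rel_act (ρ : G →* Equiv.Perm X) (g : G) (u v : X × Option (X × X × Bool)) :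
    rel ρ u v ↔ rel ρ (act ρ g u) (act ρ g v) := by
  obtain ⟨x, _ | ⟨a, b, _ | _⟩⟩ := u <;> obtain ⟨y, _ | ⟨a', b', _ | _⟩⟩ := v <;>
    simp only [rel, act_apply, EmbeddingLike.apply_eq_iff_eq]
  constructor
  · rintro ⟨rfl, rfl, h, h1, h2⟩
    exact ⟨rfl, rfl, g * h, by simp [h1], by simp [h2]⟩
  · rintro ⟨rfl, rfl, h, h1, h2⟩
    refine ⟨rfl, rfl, g⁻¹ * h, ?_, ?_⟩
    · simp [h1]
    · simp [h2]

theorem adj_act (ρ : G →* Equiv.Perm X) (g : G) (u v : X × Option (X × X × Bool)) :
    (H ρ).Adj u v ↔ (H ρ).Adj (act ρ g u) (act ρ g v) := by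
  rw [adj_iff, adj_iff, rel_act ρ g u v, rel_act ρ g v u]

/-- a layer preserving automorphism comes from the group -/
theorem exists_g [Finite X] (ρ : G →* Equiv.Perm X) (hcl : TwoClosed ρ)
    (π : Equiv.Perm (X × Option (X × X × Bool)))
    (hadj : ∀ u v, (H ρ).Adj u v ↔ (H ρ).Adj (π u) (π v)) (hcol : ∀ v, (π v).2 = v.2) :
    ∃ g : G, π = act ρ g := by
  classical
  have hn : ∀ x, π (x, none) = ((π (x, none)).1, none) := fun x => Prod.ext rfl (hcol _)
  have hs : ∀ x t, π (x, some t) = ((π (x, none)).1, some t) := by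
    intro x t
    have h1 : (H ρ).Adj (x, none) (x, some t) := adj_iff.2 (Or.inl (by simp [rel]))
    have h2 := (hadj _ _).1 h1
    have h3 : π (x, some t) = ((π (x, some t)).1, some t) := Prod.ext rfl (hcol _)
    rw [hn x, h3, adj_iff] at h2
    rcases h2 with h2 | h2
    · simp only [rel] at h2
      rw [h3, h2]
    · simp [rel] at h2
  have hall : ∀ x j, π (x, j) = ((π (x, none)).1, j) := by
    intro x j
    rcases j with _ | t
    · exact hn x
    · exact hs x t
  have hinj : Function.Injective (fun x => (π (x, none)).1) := by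
    intro x y hxy
    have h1 : π (x, none) = π (y, none) := by
      rw [hn x, hn y]
      exact Prod.ext hxy rfl
    exact congrArg Prod.fst (π.injective h1)
  let P : Equiv.Perm X := Equiv.ofBijective _ (Finite.injective_iff_bijective.1 hinj)
  have hP : ∀ x, P x = (π (x, none)).1 := fun x => rfl
  obtain ⟨g, hg⟩ := hcl P (by
    intro x y
    have h1 : (H ρ).Adj (x, some (x, y, false)) (y, some (x, y, true)) :=
      adj_iff.2 (Or.inl ⟨rfl, rfl, 1, by simp, by simp⟩)
    have h2 := (hadj _ _).1 h1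
    rw [hs x, hs y, adj_iff] at h2
    rcases h2 with h2 | h2
    · obtain ⟨-, -, g, h3, h4⟩ := h2
      exact ⟨g, h3, h4⟩
    · simp [rel] at h2)
  refine ⟨g, ?_⟩
  ext1 v
  obtain ⟨x, j⟩ := v
  rw [hall, act_apply, hg, hP]

end Gr

open Gr in
theorem s_gr (h : S_enc) : S_gr := by
  intro G _ X _ _ ρ hρ hcl m hm
  classical
  let e := Fintype.equivFin (Option (X × X × Bool))
  obtain ⟨W, hW, Γ, i, hi, haut, hext⟩ := h (X × Option (X × X × Bool)) (H ρ)
    (Fintype.card (Option (X × X × Bool))) (fun v => e v.2)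
  -- the automorphism given by a group element
  have hex : ∀ g : G, ∃ φ : Γ ≃g Γ, (∀ v, φ (i v) = i (act ρ g v)) ∧
      ∀ w, w ∉ Set.range i → φ w = w := by
    intro g
    exact hext (act ρ g) (adj_act ρ g) (fun v => rfl)
  choose Φ hΦ1 hΦ2 using hex
  have hsurj : ∀ φ : Γ ≃g Γ, ∃ g, Φ g = φ := by
    intro φ
    obtain ⟨π, h1, h2, h3, h4⟩ := haut φ
    obtain ⟨g, hg⟩ := exists_g ρ hcl π h1 (fun v => e.injective (h2 v))
    refine ⟨g, ?_⟩
    ext w
    by_cases hw : w ∈ Set.range i
    · obtain ⟨v, rfl⟩ := hw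
      rw [hΦ1, h3, hg]
    · rw [hΦ2 g w hw, h4 w hw]
  have hfix : ∀ (g : G) (x : X) (j : Option (X × X × Bool)),
      Φ g (i (x, j)) = i (x, j) ↔ ρ g x = x := by
    intro g x j
    rw [hΦ1, hi.eq_iff, act_apply]
    constructor
    · intro h
      exact congrArg Prod.fst h
    · intro h
      exact Prod.ext h rfl
  have hmul : ∀ g k : G, Φ (g * k) = Φ g * Φ k := by
    intro g k
    ext w
    rw [RelIso.mul_apply]
    by_cases hw : w ∈ Set.range i
    · obtain ⟨v, rfl⟩ := hw
      rw [hΦ1, hΦ1, hΦ1, act_apply, act_apply, act_apply, map_mul]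
      rfl
    · rw [hΦ2 _ w hw, hΦ2 _ w hw, hΦ2 _ w hw]
  have hinj : Function.Injective Φ := by
    intro g k hgk
    apply hρ
    ext x
    have h1 : Φ g (i (x, none)) = Φ k (i (x, none)) := by rw [hgk]
    rw [hΦ1, hΦ1, hi.eq_iff] at h1
    exact congrArg Prod.fst h1
  have hone : ∀ w, Φ 1 w = w := by
    intro w
    by_cases hw : w ∈ Set.range i
    · obtain ⟨⟨x, j⟩, rfl⟩ := hw
      rw [hfix]
      simp
    · exact hΦ2 _ w hw
  refine ⟨W, hW, Γ, ⟨(MulEquiv.ofBijective (MonoidHom.mk' Φ hmul) ⟨hinj, hsurj⟩).symm⟩, ?_, ?_⟩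
  · -- a base of `X` gives a determining set
    obtain ⟨B, hB, hb⟩ := hm.1
    have hinj2 : Function.Injective (fun x : X => i (x, none)) := by
      intro x y hxy
      exact congrArg Prod.fst (hi hxy)
    refine ⟨B.map ⟨fun x => i (x, none), hinj2⟩, by rw [Finset.card_map, hB], ?_⟩
    intro φ hφ
    obtain ⟨g, rfl⟩ := hsurj φ
    have hg : g = 1 := by
      apply hb
      intro x hx
      rw [← hfix g x none]
      exact hφ _ (Finset.mem_map.2 ⟨x, hx, rfl⟩)
    subst hg
    exact hone
  · -- a determining set gives a base of at most the same size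
    rintro k ⟨B', rfl, hb'⟩
    let B : Finset X := Finset.univ.filter (fun x => ∃ j, i (x, j) ∈ B')
    have hBase : IsBase ρ B := by
      intro g hg
      have h1 : ∀ w, Φ g w = w := by
        apply hb'
        intro w hw
        by_cases hr : w ∈ Set.range i
        · obtain ⟨⟨x, j⟩, rfl⟩ := hr
          rw [hfix]
          apply hg
          exact Finset.mem_filter.2 ⟨Finset.mem_univ _, j, hw⟩
        · exact hΦ2 _ w hr
      apply hρ
      rw [map_one]
      ext x
      exact (hfix g x none).1 (h1 _)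
    have hcard : B.card ≤ B'.card := by
      have hj : ∀ x ∈ B, ∃ j, i (x, j) ∈ B' := fun x hx => (Finset.mem_filter.1 hx).2
      choose! j hj using hj
      apply Finset.card_le_card_of_injOn (fun x => i (x, j x)) hj
      intro x _ y _ hxy
      exact congrArg Prod.fst (hi hxy)
    exact (hm.2 ⟨B, rfl, hBase⟩).trans hcard

end R624DB
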