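import Pool.Agent.R624.DB.Defs

/-!
# MP_4c7f2d_al: assembly
-/

set_option autoImplicit false

namespace R624DB

open Set

/-- the permutation representation of `G` on the vertices of a graph with automorphism group
isomorphic to `G` -/
def rep {G V : Type} [Group G] {Γ : SimpleGraph V} (e : (Γ ≃g Γ) ≃* G) : G →* Equiv.Perm V where
  toFun g := (e.symm g).toEquiv
  map_one' := by
    ext x
    simp only [map_one]
    rfl
  map_mul' := by
    intro g h
    ext x
    simp only [map_mul]
    rfl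

lemma rep_apply {G V : Type} [Group G] {Γ : SimpleGraph V} (e : (Γ ≃g Γ) ≃* G) (g : G) (x : V) :
    rep e g x = e.symm g x := rfl

lemma rep_inj {G V : Type} [Group G] {Γ : SimpleGraph V} (e : (Γ ≃g Γ) ≃* G) :
    Function.Injective (rep e) := by
  intro g h hgh
  apply e.symm.injective
  ext x
  have := congrArg (fun π : Equiv.Perm V => π x) hgh
  exact this

lemma isBase_rep {G V : Type} [Group G] {Γ : SimpleGraph V} (e : (Γ ≃g Γ) ≃* G) (B : Finset V) :
    IsBase (rep e) B ↔ ∀ g : Γ ≃g Γ, (∀ x ∈ B, g x = x) → ∀ x, g x = x := by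
  constructor
  · intro h g hg x
    have h1 : e g = 1 := by
      apply h
      intro y hy
      rw [rep_apply, e.symm_apply_apply]
      exact hg y hy
    have h2 : g = 1 := by
      apply e.injective
      rw [h1, map_one]
    rw [h2]; rfl
  · intro h g hg
    have h1 : ∀ x, e.symm g x = x := h (e.symm g) hg
    apply rep_inj e
    ext x
    rw [rep_apply, h1, map_one]
    rfl

lemma detNumber_iff {G V : Type} [Group G] {Γ : SimpleGraph V} (e : (Γ ≃g Γ) ≃* G) (m : ℕ) :
    DetNumber Γ m ↔ BaseSize (rep e) m := by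
  unfold DetNumber BaseSize
  simp only [isBase_rep e]

lemma dset_subset (G : Type) [Group G] : DSet G ⊆ BSet G := by
  rintro m ⟨V, hV, Γ, ⟨e⟩, hm⟩
  exact ⟨V, hV, rep e, rep_inj e, (detNumber_iff e m).1 hm⟩

lemma r_one_ne (n : ℕ) (hn : 2 ≤ n) : (DihedralGroup.r 1 : DihedralGroup n) ≠ 1 := by
  intro h
  have h1 : (DihedralGroup.r 1 : DihedralGroup n) = DihedralGroup.r 0 := h
  have h2 : (1 : ZMod n) = 0 := by
    injection h1
  have : Fact (1 < n) := ⟨by omega⟩
  exact one_ne_zero h2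

lemma bset_subset (hub : S_ub) (n : ℕ) (hn : 2 ≤ n) :
    BSet (DihedralGroup n) ⊆ Icc 1 (n.primeFactors.card + 1) := by
  rintro m ⟨X, hX, ρ, hρ, ⟨⟨B, hB, hBb⟩, hleast⟩⟩
  refine ⟨?_, ?_⟩
  · by_contra h
    have h0 : B.card = 0 := by omega
    rw [Finset.card_eq_zero] at h0
    subst h0
    exact r_one_ne n hn (hBb _ (by simp))
  · obtain ⟨B', hB', hb'⟩ := hub n hn X ρ hρ
    exact (hleast ⟨B', rfl, hb'⟩).trans hB'

lemma baseSize_of (hub : S_ub) (n : ℕ) (hn : 2 ≤ n) (X : Type) [Fintype X]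
    (ρ : DihedralGroup n →* Equiv.Perm X) (hρ : Function.Injective ρ)
    (h : ∀ B, IsBase ρ B → n.primeFactors.card + 1 ≤ B.card) :
    BaseSize ρ (n.primeFactors.card + 1) := by
  obtain ⟨B, hB, hb⟩ := hub n hn X ρ hρ
  refine ⟨⟨B, le_antisymm hB (h B hb), hb⟩, ?_⟩
  rintro k ⟨B', rfl, hb'⟩
  exact h B' hb'

theorem main (hgr : S_gr) (hub : S_ub) (hno : S_no) (hR : S_R) (hB2 : S_B2) (hG2 : S_G2)
    (hG1a : S_G1a) (hG1b : S_G1b) (n : ℕ) (hn : 2 ≤ n) :
    BSet (DihedralGroup n) = Icc 1 (n.primeFactors.card + 1) ∧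
    (Good n → DSet (DihedralGroup n) = Icc 1 (n.primeFactors.card + 1)) ∧
    (¬ Good n → DSet (DihedralGroup n) = Icc 1 n.primeFactors.card) ∧
    (DSet (DihedralGroup n) = BSet (DihedralGroup n) ↔ Good n) := by
  have hlow : ∀ m, 1 ≤ m → m ≤ n.primeFactors.card → m ∈ DSet (DihedralGroup n) := by
    intro m h1 h2
    obtain ⟨X, hX, hne, ρ, hρ, h2c, hb⟩ := hR n hn m h1 h2
    exact hgr _ X ρ hρ h2c m hb
  have hgood : Good n → n.primeFactors.card + 1 ∈ DSet (DihedralGroup n) := by
    intro hg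
    have : ∃ (X : Type) (_ : Fintype X) (_ : Nonempty X) (ρ : DihedralGroup n →* Equiv.Perm X),
        Function.Injective ρ ∧ TwoClosed ρ ∧ ∀ B, IsBase ρ B → n.primeFactors.card + 1 ≤ B.card := by
      rcases hg with h | ⟨p, hp, hp2, h⟩
      · by_cases h4 : 4 ∣ n
        · exact hG1b n hn h4 h
        · exact hG1a n hn h4 h
      · exact hG2 n p hp hp2 h
    obtain ⟨X, hX, hne, ρ, hρ, h2c, hb⟩ := this
    exact hgr _ X ρ hρ h2c _ (baseSize_of hub n hn X ρ hρ hb)
  have hB : n.primeFactors.card + 1 ∈ BSet (DihedralGroup n) := by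
    by_cases hg : Good n
    · exact dset_subset _ (hgood hg)
    · have : ∃ p : ℕ, p.Prime ∧ p ≠ 2 ∧ p ∣ n := by
        by_contra hcon
        push Not at hcon
        exact hg (Or.inl fun p hp hp2 hpn => absurd hpn (hcon p hp hp2))
      obtain ⟨X, hX, ρ, hρ, hb⟩ := hB2 n hn this
      exact ⟨X, hX, ρ, hρ, baseSize_of hub n hn X ρ hρ hb⟩
  have hBeq : BSet (DihedralGroup n) = Icc 1 (n.primeFactors.card + 1) := by
    apply Subset.antisymm (bset_subset hub n hn)
    rintro m ⟨h1, h2⟩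
    rcases Nat.lt_or_ge n.primeFactors.card m with h | h
    · obtain rfl : m = n.primeFactors.card + 1 := by omega
      exact hB
    · exact dset_subset _ (hlow m h1 h)
  have hD1 : Good n → DSet (DihedralGroup n) = Icc 1 (n.primeFactors.card + 1) := by
    intro hg
    apply Subset.antisymm
    · rw [← hBeq]; exact dset_subset _
    · rintro m ⟨h1, h2⟩
      rcases Nat.lt_or_ge n.primeFactors.card m with h | h
      · obtain rfl : m = n.primeFactors.card + 1 := by omega
        exact hgood hg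
      · exact hlow m h1 h
  have hnot : ¬ Good n → n.primeFactors.card + 1 ∉ DSet (DihedralGroup n) := by
    rintro hg ⟨V, hV, Γ, ⟨e⟩, hm⟩
    have hm' := (detNumber_iff e _).1 hm
    obtain ⟨B, hBc, hBb⟩ := hno n hn hg V Γ (rep e) (rep_inj e)
      (fun g x y => ((e.symm g).map_rel_iff).symm)
      (by
        intro π hπ
        let f : Γ ≃g Γ := ⟨π, fun {a b} => (hπ a b).symm⟩
        refine ⟨e f, ?_⟩
        ext x
        rw [rep_apply, e.symm_apply_apply]
        rfl)
    have := hm'.2 ⟨B, rfl, hBb⟩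
    omega
  have hD2 : ¬ Good n → DSet (DihedralGroup n) = Icc 1 n.primeFactors.card := by
    intro hg
    apply Subset.antisymm
    · intro m hm
      have h1 := dset_subset _ hm
      rw [hBeq] at h1
      refine ⟨h1.1, ?_⟩
      by_contra hcon
      obtain rfl : m = n.primeFactors.card + 1 := le_antisymm h1.2 (by omega)
      exact hnot hg hm
    · rintro m ⟨h1, h2⟩
      exact hlow m h1 h2
  refine ⟨hBeq, hD1, hD2, ?_, ?_⟩
  · intro h
    by_contra hg
    apply hnot hg
    rw [h]; exact hB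
  · intro hg
    rw [hD1 hg, hBeq]

end R624DB
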