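import Pool.Agent.R624.DB.Defs

/-!
# Piece (no): impossibility
-/

set_option autoImplicit false

namespace R624DB

namespace NoAux

open DihedralGroup

section arith

variable {n : ℕ} [NeZero n]

theorem gcd_cast (a : ZMod n) : ∃ c : ZMod n, ((Nat.gcd a.val n : ℕ) : ZMod n) = a * c := by
  refine ⟨((Nat.gcdA a.val n : ℤ) : ZMod n), ?_⟩
  have h := congrArg (fun z : ℤ => (z : ZMod n)) (Nat.gcd_eq_gcd_ab a.val n)
  simp only [Int.cast_natCast, Int.cast_add, Int.cast_mul, ZMod.natCast_zmod_val,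
    ZMod.natCast_self, zero_mul, add_zero] at h
  exact h

theorem lem1 (a : ZMod n) {q : ℕ} (hq : q.Prime) (h : q ∣ n / Nat.gcd a.val n) :
    ∃ c : ZMod n, ((n / q : ℕ) : ZMod n) = a * c := by
  obtain ⟨t, ht⟩ := h
  obtain ⟨c, hc⟩ := gcd_cast a
  have h1 : n = Nat.gcd a.val n * (q * t) := by
    rw [← ht]
    exact (Nat.mul_div_cancel' (Nat.gcd_dvd_right _ _)).symm
  have h2 : n / q = Nat.gcd a.val n * t := by
    apply Nat.div_eq_of_eq_mul_right hq.pos
    nlinarith [h1]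
  refine ⟨c * t, ?_⟩
  rw [h2, Nat.cast_mul, hc, mul_assoc]

theorem lemA (a : ZMod n) (ha : a ≠ 0) :
    ∃ q ∈ n.primeFactors, ∃ c : ZMod n, ((n / q : ℕ) : ZMod n) = a * c := by
  have hn : 0 < n := Nat.pos_of_ne_zero (NeZero.ne n)
  have hg : Nat.gcd a.val n ∣ n := Nat.gcd_dvd_right _ _
  have h1 : n / Nat.gcd a.val n ≠ 1 := by
    intro h
    have h2 : n = Nat.gcd a.val n := by
      have := Nat.mul_div_cancel' hg
      rw [h, mul_one] at this
      exact this.symm
    have h3 : n ∣ a.val := by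
      conv_lhs => rw [h2]
      exact Nat.gcd_dvd_left _ _
    have h4 := Nat.eq_zero_of_dvd_of_lt h3 (ZMod.val_lt a)
    exact ha ((ZMod.val_eq_zero a).1 h4)
  have hq := Nat.minFac_prime h1
  have hqd := Nat.minFac_dvd (n / Nat.gcd a.val n)
  exact ⟨_, Nat.mem_primeFactors.2 ⟨hq, hqd.trans (Nat.div_dvd_of_dvd hg), hn.ne'⟩, lem1 a hq hqd⟩

theorem lemA' (a : ZMod n) {p : ℕ} (hp : p.Prime) (hpn : p ∣ n) (hpp : ¬ p ^ 2 ∣ n)
    (h : ∀ q ∈ n.primeFactors, q ≠ p → ¬ ∃ c : ZMod n, ((n / q : ℕ) : ZMod n) = a * c) :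
    ∃ c : ZMod n, a = ((n / p : ℕ) : ZMod n) * c := by
  have hn : 0 < n := Nat.pos_of_ne_zero (NeZero.ne n)
  have hg : Nat.gcd a.val n ∣ n := Nat.gcd_dvd_right _ _
  have hg0 : 0 < Nat.gcd a.val n := Nat.pos_of_dvd_of_pos hg hn
  have hdvd : n / Nat.gcd a.val n ∣ n := Nat.div_dvd_of_dvd hg
  have h0 : n / Nat.gcd a.val n ≠ 0 := by
    intro h
    rw [h, zero_dvd_iff] at hdvd
    omega
  have h1 := Nat.eq_prime_pow_of_unique_prime_dvd (p := p) h0 (by
    intro d hd hdd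
    by_contra hne
    exact h d (Nat.mem_primeFactors.2 ⟨hd, hdd.trans hdvd, hn.ne'⟩) hne (lem1 a hd hdd))
  set e := (n / Nat.gcd a.val n).primeFactorsList.length
  have he : e ≤ 1 := by
    by_contra hcon
    exact hpp (((pow_dvd_pow p (by omega : 2 ≤ e)).trans (dvd_of_eq h1.symm)).trans hdvd)
  have h2 : n = Nat.gcd a.val n * (n / Nat.gcd a.val n) := (Nat.mul_div_cancel' hg).symm
  have h3 : n / p ∣ Nat.gcd a.val n := by
    rcases (by omega : e = 0 ∨ e = 1) with h4 | h4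
    · rw [h4, pow_zero] at h1
      rw [h1, mul_one] at h2
      rw [← h2]
      exact Nat.div_dvd_of_dvd hpn
    · rw [h4, pow_one] at h1
      rw [h1] at h2
      rw [Nat.div_eq_of_eq_mul_left hp.pos h2]
  obtain ⟨s, hs⟩ := h3.trans (Nat.gcd_dvd_left a.val n)
  refine ⟨s, ?_⟩
  rw [← Nat.cast_mul, ← hs, ZMod.natCast_zmod_val]

omit [NeZero n] in
theorem lemOdd {q : ℕ} (hq : q.Prime) (hq2 : q ≠ 2) (hqn : q ∣ n) :
    ∃ c : ZMod n, ((n / q : ℕ) : ZMod n) = 2 * c := by
  obtain ⟨t, ht⟩ := hq.odd_of_ne_two hq2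
  have h1 : (n / q) * q = n := Nat.div_mul_cancel hqn
  have h2 : ((n / q : ℕ) : ZMod n) * (2 * t + 1) = 0 := by
    have h3 := congrArg (fun z : ℕ => (z : ZMod n)) h1
    simp only [ZMod.natCast_self] at h3
    rw [ht] at h3 ⊢
    push_cast at h3 ⊢
    exact h3
  refine ⟨-(t * ((n / q : ℕ) : ZMod n)), ?_⟩
  linear_combination h2

omit [NeZero n] in
theorem lem4 (h : 4 ∣ n) : ∃ c : ZMod n, ((n / 2 : ℕ) : ZMod n) = 2 * c := by
  obtain ⟨t, rfl⟩ := h
  refine ⟨(t : ZMod _), ?_⟩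
  have h1 : 4 * t / 2 = 2 * t := by omega
  rw [h1]
  push_cast
  rfl

end arith

section act

variable {n : ℕ} {V : Type} (ρ : DihedralGroup n →* Equiv.Perm V)

theorem fix_mul {g h : DihedralGroup n} {x : V} (hg : ρ g x = x) (hh : ρ h x = x) :
    ρ (g * h) x = x := by
  rw [map_mul, Equiv.Perm.mul_apply, hh, hg]

theorem fix_r [NeZero n] {a : ZMod n} {x : V} (h : ρ (r a) x = x) (c : ZMod n) :
    ρ (r (a * c)) x = x := by
  have h1 : (r (a * c) : DihedralGroup n) = (r a) ^ c.val := by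
    rw [DihedralGroup.r_pow, ZMod.natCast_zmod_val]
  rw [h1, map_pow]
  exact Equiv.Perm.pow_apply_eq_self_of_apply_eq_self h _

theorem fix_neg {a : ZMod n} {x : V} (h : ρ (r a) x = x) : ρ (r (-a)) x = x := by
  have h1 : ρ (r (-a)) (ρ (r a) x) = x := by
    rw [← Equiv.Perm.mul_apply, ← map_mul, DihedralGroup.r_mul_r, neg_add_cancel]
    change ρ 1 x = x
    rw [map_one]
    rfl
  rwa [h] at h1

/-- the points moved by `r m` form an invariant set -/
theorem fix_inv {m : ZMod n} {x : V} (g : DihedralGroup n) (h : ρ (r m) x = x) :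
    ρ (r m) (ρ g x) = ρ g x := by
  rcases g with b | b
  · rw [← Equiv.Perm.mul_apply, ← map_mul, DihedralGroup.r_mul_r, add_comm,
      ← DihedralGroup.r_mul_r, map_mul, Equiv.Perm.mul_apply, h]
  · have h1 : (r m * sr b : DihedralGroup n) = sr b * r (-m) := by
      rw [DihedralGroup.r_mul_sr, DihedralGroup.sr_mul_r, sub_eq_add_neg]
    rw [← Equiv.Perm.mul_apply, ← map_mul, h1, map_mul, Equiv.Perm.mul_apply, fix_neg ρ h]

theorem fix_inv_iff {m : ZMod n} {x : V} (g : DihedralGroup n) :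
    ρ (r m) (ρ g x) = ρ g x ↔ ρ (r m) x = x := by
  constructor
  · intro h
    have h1 := fix_inv ρ g⁻¹ h
    rwa [← Equiv.Perm.mul_apply (ρ g⁻¹), ← map_mul, inv_mul_cancel, map_one,
      Equiv.Perm.one_apply] at h1
  · exact fix_inv ρ g

/-- a reflection that fixes an invariant set pointwise: so does `r 2` -/
theorem fix_two {S : Set V} (hS : ∀ g x, x ∈ S → ρ g x ∈ S) {b : ZMod n}
    (h : ∀ x ∈ S, ρ (sr b) x = x) : ∀ x ∈ S, ρ (r 2) x = x := by
  intro x hx
  have h1 : ρ (r (-1)) (ρ (sr b) (ρ (r 1) x)) = x := by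
    rw [h _ (hS _ _ hx), ← Equiv.Perm.mul_apply, ← map_mul, DihedralGroup.r_mul_r, neg_add_cancel]
    change ρ 1 x = x
    rw [map_one]
    rfl
  rw [← Equiv.Perm.mul_apply, ← Equiv.Perm.mul_apply, ← map_mul, ← map_mul,
    DihedralGroup.r_mul_sr, DihedralGroup.sr_mul_r] at h1
  have h2 := fix_mul ρ (h x hx) h1
  rw [DihedralGroup.sr_mul_sr] at h2
  have h3 : b - -1 + 1 - b = (2 : ZMod n) := by ring
  rwa [h3] at h2

theorem sr_sq (a : ZMod n) (x : V) : ρ (sr a) (ρ (sr a) x) = x := by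
  rw [← Equiv.Perm.mul_apply, ← map_mul, DihedralGroup.sr_mul_sr, sub_self]
  change ρ 1 x = x
  rw [map_one]
  rfl

end act



end NoAux

open NoAux DihedralGroup in
theorem s_no : S_no := by
  intro n hn hgood V _ Γ ρ hinj hadj hall
  classical
  have : NeZero n := ⟨by omega⟩
  have hn0 : 0 < n := by omega
  by_contra hcon
  push Not at hcon
  -- the prime `p`
  have hbad : ∃ p : ℕ, p.Prime ∧ p ≠ 2 ∧ p ∣ n ∧ ¬ p ^ 2 ∣ n ∧ n ≠ p ∧ n ≠ 2 * p := by
    unfold Good at hgood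
    push Not at hgood
    obtain ⟨⟨p, h1, h2, h3, h4⟩, h5⟩ := hgood
    exact ⟨p, h1, h2, h3, h4, h5 p h1 h2⟩
  obtain ⟨p, hp, hp2, hpn, hpp, hnp, hn2p⟩ := hbad
  have hpk : p ∈ n.primeFactors := Nat.mem_primeFactors.2 ⟨hp, hpn, hn0.ne'⟩
  -- the moved points
  have hmov : ∀ q ∈ n.primeFactors, ∃ x, ρ (r ((n / q : ℕ) : ZMod n)) x ≠ x := by
    intro q hq
    by_contra h
    push Not at h
    have h1 : ρ (r ((n / q : ℕ) : ZMod n)) = ρ 1 := by
      rw [map_one]
      ext x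
      exact h x
    have h2 := hinj h1
    have h3 : ((n / q : ℕ) : ZMod n) = 0 := by
      have h4 : (r ((n / q : ℕ) : ZMod n) : DihedralGroup n) = r 0 := h2
      injection h4
    rw [ZMod.natCast_eq_zero_iff] at h3
    have hq' := Nat.mem_primeFactors.1 hq
    have h4 : n / q < n := Nat.div_lt_self hn0 hq'.1.one_lt
    have h5 := Nat.eq_zero_of_dvd_of_lt h3 h4
    have h6 := Nat.div_mul_cancel hq'.2.1
    rw [h5, zero_mul] at h6
    omega
  have : Nonempty V := ⟨(hmov p hpk).choose⟩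
  choose! w hw using hmov
  set k := n.primeFactors.card with hk
  set Q := n.primeFactors.erase p with hQ
  have hk1 : 1 ≤ k := Finset.card_pos.2 ⟨p, hpk⟩
  have hQk : Q.card = k - 1 := Finset.card_erase_of_mem hpk
  have hQm : ∀ q, q ∈ Q ↔ q ≠ p ∧ q ∈ n.primeFactors := fun q => Finset.mem_erase
  -- rotations
  have hrot : ∀ a : ZMod n, (∀ q ∈ Q, ρ (r a) (w q) = w q) → ∀ v,
      ρ (r ((n / p : ℕ) : ZMod n)) v ≠ v → ρ (r a) v = v → a = 0 := by
    intro a h v hv1 hv2
    by_contra ha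
    obtain ⟨q, hq, c, hc⟩ := lemA a ha
    by_cases hqp : q = p
    · subst hqp
      apply hv1
      rw [hc]
      exact fix_r ρ hv2 c
    · apply hw q hq
      rw [hc]
      exact fix_r ρ (h q ((hQm q).2 ⟨hqp, hq⟩)) c
  have hcards : ∀ v, (insert v (Q.image w)).card ≤ k := by
    intro v
    have h1 := Finset.card_insert_le v (Q.image w)
    have h2 : (Q.image w).card ≤ Q.card := Finset.card_image_le
    omega
  have step1 : ∀ v, ρ (r ((n / p : ℕ) : ZMod n)) v ≠ v →
      ∃ a, ρ (sr a) v = v ∧ ∀ q ∈ Q, ρ (sr a) (w q) = w q := by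
    intro v hv
    have h1 := hcon _ (hcards v)
    unfold IsBase at h1
    push Not at h1
    obtain ⟨g, hg, hg1⟩ := h1
    have hgv : ρ g v = v := hg v (Finset.mem_insert_self _ _)
    have hgq : ∀ q ∈ Q, ρ g (w q) = w q := fun q hq =>
      hg _ (Finset.mem_insert_of_mem (Finset.mem_image_of_mem _ hq))
    rcases g with a | a
    · exfalso
      apply hg1
      rw [hrot a hgq v hv hgv]
      rfl
    · exact ⟨a, hgv, hgq⟩
  obtain ⟨a0, ha0p, ha0Q⟩ := step1 (w p) (hw p hpk)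
  have step2 : ∀ v, ρ (r ((n / p : ℕ) : ZMod n)) v ≠ v →
      ∃ c : ZMod n, ρ (sr (a0 + ((n / p : ℕ) : ZMod n) * c)) v = v := by
    intro v hv
    obtain ⟨a, hav, haQ⟩ := step1 v hv
    have h1 : ∀ q ∈ Q, ρ (r (a - a0)) (w q) = w q := by
      intro q hq
      have := fix_mul ρ (ha0Q q hq) (haQ q hq)
      rwa [DihedralGroup.sr_mul_sr] at this
    obtain ⟨c, hc⟩ := lemA' (a - a0) hp hpn hpp (by
      rintro q hq hqp ⟨c, hc⟩
      apply hw q hq
      rw [hc]
      exact fix_r ρ (h1 q ((hQm q).2 ⟨hqp, hq⟩)) c)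
    refine ⟨c, ?_⟩
    rw [← hc, add_sub_cancel]
    exact hav
  -- the permutation
  set M : V → Prop := fun v => ρ (r ((n / p : ℕ) : ZMod n)) v ≠ v with hM
  have hMinv : ∀ g v, M (ρ g v) ↔ M v := fun g v => not_congr (fix_inv_iff ρ g)
  set f : V → V := fun v => if M v then v else ρ (sr a0) v with hf
  have hf1 : ∀ v, M v → f v = v := fun v hv => if_pos hv
  have hf2 : ∀ v, ¬ M v → f v = ρ (sr a0) v := fun v hv => if_neg hv
  have hfinv : Function.Involutive f := by
    intro v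
    by_cases hv : M v
    · rw [hf1 v hv, hf1 v hv]
    · rw [hf2 v hv, hf2 _ (fun h => hv ((hMinv _ _).1 h)), sr_sq]
  have hmix : ∀ v x, M v → ¬ M x → (Γ.Adj v x ↔ Γ.Adj v (ρ (sr a0) x)) := by
    intro v x hv hx
    obtain ⟨c, hc⟩ := step2 v hv
    have h1 : ρ (sr (a0 + ((n / p : ℕ) : ZMod n) * c)) x = ρ (sr a0) x := by
      rw [← DihedralGroup.sr_mul_r, map_mul, Equiv.Perm.mul_apply]
      congr 1
      exact fix_r ρ (not_not.1 hx) c
    have h2 := hadj (sr (a0 + ((n / p : ℕ) : ZMod n) * c)) v x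
    rwa [hc, h1] at h2
  have hfadj : ∀ x y, Γ.Adj x y ↔ Γ.Adj (hfinv.toPerm f x) (hfinv.toPerm f y) := by
    intro x y
    change Γ.Adj x y ↔ Γ.Adj (f x) (f y)
    by_cases hx : M x <;> by_cases hy : M y
    · rw [hf1 x hx, hf1 y hy]
    · rw [hf1 x hx, hf2 y hy]
      exact hmix x y hx hy
    · rw [hf2 x hx, hf1 y hy, Γ.adj_comm, Γ.adj_comm _ y]
      exact hmix y x hy hx
    · rw [hf2 x hx, hf2 y hy]
      exact hadj _ x y
  obtain ⟨g, hg⟩ := hall _ hfadj
  have hgf : ∀ v, ρ g v = f v := fun v => by rw [hg]; rfl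
  have hMp : M (w p) := hw p hpk
  rcases g with b | b
  · -- rotation
    have h1 : ∀ x ∈ {v | ¬ M v}, ρ (sr (a0 + b)) x = x := by
      intro x hx
      have h2 := hgf x
      rw [hf2 x hx] at h2
      rw [← DihedralGroup.sr_mul_r, map_mul, Equiv.Perm.mul_apply, h2, sr_sq]
    have h2 : ∀ x ∈ {v | ¬ M v}, ρ (r 2) x = x :=
      fix_two ρ (fun g x hx h => hx ((hMinv g x).1 h)) h1
    have h3 : ∃ q ∈ Q, ∃ c : ZMod n, ((n / q : ℕ) : ZMod n) = 2 * c := by
      by_cases hodd : ∃ q, q.Prime ∧ q ≠ 2 ∧ q ≠ p ∧ q ∣ n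
      · obtain ⟨q, hq, hq2, hqp, hqn⟩ := hodd
        exact ⟨q, (hQm q).2 ⟨hqp, Nat.mem_primeFactors.2 ⟨hq, hqn, hn0.ne'⟩⟩,
          lemOdd hq hq2 hqn⟩
      · push Not at hodd
        -- `n / p` is a power of two
        have hnp0 : n / p ≠ 0 := (Nat.div_pos (Nat.le_of_dvd hn0 hpn) hp.pos).ne'
        have hmul : p * (n / p) = n := Nat.mul_div_cancel' hpn
        have hpow := Nat.eq_prime_pow_of_unique_prime_dvd (p := 2) hnp0 (by
          intro d hd hdd
          by_contra hne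
          have hdn : d ∣ n := hdd.trans (Nat.div_dvd_of_dvd hpn)
          by_cases hdp : d = p
          · subst hdp
            apply hpp
            rw [pow_two, ← hmul]
            exact Nat.mul_dvd_mul_left _ hdd
          · exact hodd d hd hne hdp hdn)
        set e := (n / p).primeFactorsList.length
        have he : 2 ≤ e := by
          by_contra hcon
          rcases (by omega : e = 0 ∨ e = 1) with h4 | h4
          · rw [h4, pow_zero] at hpow
            rw [hpow, mul_one] at hmul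
            exact hnp hmul.symm
          · rw [h4, pow_one] at hpow
            rw [hpow] at hmul
            omega
        have h4 : 4 ∣ n := by
          have h5 : 2 ^ 2 ∣ n / p := by
            rw [hpow]
            exact pow_dvd_pow 2 he
          exact (by norm_num : (4 : ℕ) = 2 ^ 2) ▸ h5.trans (Nat.div_dvd_of_dvd hpn)
        refine ⟨2, (hQm 2).2 ⟨fun h => hp2 h.symm, Nat.mem_primeFactors.2
          ⟨Nat.prime_two, (by norm_num : 2 ∣ 4).trans h4, hn0.ne'⟩⟩, lem4 h4⟩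
    obtain ⟨q, hq, c, hc⟩ := h3
    have hMq : M (w q) := by
      by_contra h4
      apply hw q ((hQm q).1 hq).2
      rw [hc]
      exact fix_r ρ (h2 _ (fun h => h h4)) c
    -- the base
    have hne : ∃ y, ρ (sr a0) y ≠ y := by
      by_contra h
      push Not at h
      have h5 : ρ (sr a0) = ρ 1 := by
        rw [map_one]
        ext x
        exact h x
      have h6 : (sr a0 : DihedralGroup n) = r 0 := hinj h5
      injection h6
    obtain ⟨y, hy⟩ := hne
    refine hcon _ (hcards y) ?_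
    intro g hg
    have hgy : ρ g y = y := hg y (Finset.mem_insert_self _ _)
    have hgq : ∀ q ∈ Q, ρ g (w q) = w q := fun q hq =>
      hg _ (Finset.mem_insert_of_mem (Finset.mem_image_of_mem _ hq))
    rcases g with a | a
    · rw [hrot a hgq (w q) hMq (hgq q hq)]
      rfl
    · exfalso
      have h5 : ∀ q ∈ Q, ρ (r (a - a0)) (w q) = w q := by
        intro q hq
        have := fix_mul ρ (ha0Q q hq) (hgq q hq)
        rwa [DihedralGroup.sr_mul_sr] at this
      have h6 := hrot (a - a0) h5 (w q) hMq (h5 q hq)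
      rw [sub_eq_zero] at h6
      subst h6
      exact hy hgy
  · -- reflection
    have h1 : ∀ x ∈ {v | M v}, ρ (sr b) x = x := by
      intro x hx
      rw [hgf x, hf1 x hx]
    have h2 : ∀ x ∈ {v | M v}, ρ (r 2) x = x :=
      fix_two ρ (fun g x hx => (hMinv g x).2 hx) h1
    obtain ⟨c, hc⟩ := lemOdd (n := n) hp hp2 hpn
    apply hw p hpk
    rw [hc]
    exact fix_r ρ (h2 _ hMp) c

end R624DB
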