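import Pool.Agent.R624.DB.Defs

/-! # (R): regular type actions of base size `b`, `1 ≤ b ≤ ω(n)` -/

set_option autoImplicit false

namespace R624DB

namespace Reg

/-- the number `n` is a product of `b` pairwise coprime numbers `> 1`, `1 ≤ b ≤ ω(n)` -/
theorem exists_parts (n : ℕ) (hn : 2 ≤ n) (b : ℕ) (hb : 1 ≤ b) (hbn : b ≤ n.primeFactors.card) :
    ∃ e : Fin b → ℕ, (∀ i, 1 < e i) ∧ Pairwise (Function.onFun Nat.Coprime e) ∧ n = ∏ i, e i := by
  classical
  obtain ⟨f, hf⟩ : ∃ f : ℕ → Fin b, ∀ i, ∃ p ∈ n.primeFactors, f p = i := by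
    let E := n.primeFactors.equivFin
    refine ⟨fun p => if h : p ∈ n.primeFactors then
      ⟨min (E ⟨p, h⟩).val (b - 1), lt_of_le_of_lt (min_le_right _ _) (by omega)⟩
      else ⟨0, by omega⟩, fun i => ?_⟩
    refine ⟨(E.symm ⟨i.val, lt_of_lt_of_le i.isLt hbn⟩).val, (E.symm _).2, ?_⟩
    beta_reduce
    rw [dif_pos (E.symm _).2]
    apply Fin.ext
    simp only [Subtype.coe_eta, Equiv.apply_symm_apply]
    have := i.isLt
    omega
  refine ⟨fun i => ∏ p ∈ n.primeFactors.filter (fun p => f p = i), p ^ n.factorization p,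
    fun i => ?_, fun i j hij => ?_, ?_⟩
  · obtain ⟨p, hp, hpi⟩ := hf i
    have hpp := Nat.prime_of_mem_primeFactors hp
    have h1 : p ∣ ∏ p ∈ n.primeFactors.filter (fun p => f p = i), p ^ n.factorization p := by
      refine dvd_trans ?_ (Finset.dvd_prod_of_mem _ (Finset.mem_filter.2 ⟨hp, hpi⟩))
      refine dvd_pow_self p ?_
      exact (hpp.factorization_pos_of_dvd (by omega) (Nat.dvd_of_mem_primeFactors hp)).ne'
    have h2 : 0 < ∏ p ∈ n.primeFactors.filter (fun p => f p = i), p ^ n.factorization p :=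
      Finset.prod_pos fun q hq => pow_pos
        (Nat.prime_of_mem_primeFactors (Finset.mem_filter.1 hq).1).pos _
    exact lt_of_lt_of_le hpp.one_lt (Nat.le_of_dvd h2 h1)
  · refine Nat.Coprime.prod_left fun p hp => Nat.Coprime.prod_right fun q hq => ?_
    rw [Finset.mem_filter] at hp hq
    refine Nat.Coprime.pow _ _ ((Nat.coprime_primes (Nat.prime_of_mem_primeFactors hp.1)
      (Nat.prime_of_mem_primeFactors hq.1)).2 ?_)
    rintro rfl
    exact hij (hp.2.symm.trans hq.2)
  · rw [Finset.prod_fiberwise]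
    conv_lhs => rw [← Nat.prod_factorization_pow_eq_self (n := n) (by omega)]
    rfl

variable {b : ℕ} (e : Fin b → ℕ)

/-- Chinese remainder theorem -/
theorem crt (hc : Pairwise (Function.onFun Nat.Coprime e)) (v : ∀ i, ZMod (e i)) :
    ∃ c : ZMod (∏ i, e i), ∀ i,
      ZMod.castHom (Finset.dvd_prod_of_mem e (Finset.mem_univ i)) (ZMod (e i)) c = v i := by
  refine ⟨(ZMod.prodEquivPi e hc).symm v, fun i => ?_⟩
  rw [← ZMod.prodEquivPi_apply e hc, RingEquiv.apply_symm_apply]

theorem crt_inj (hc : Pairwise (Function.onFun Nat.Coprime e)) (c : ZMod (∏ i, e i))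
    (h : ∀ i, ZMod.castHom (Finset.dvd_prod_of_mem e (Finset.mem_univ i)) (ZMod (e i)) c = 0) :
    c = 0 := by
  apply (ZMod.prodEquivPi e hc).injective
  rw [map_zero]
  funext i
  rw [ZMod.prodEquivPi_apply e hc, h i]
  rfl

/-- the action on the disjoint union of the regular actions -/
def act : DihedralGroup (∏ i, e i) →* Equiv.Perm (Σ i : Fin b, DihedralGroup (e i)) where
  toFun g := Equiv.sigmaCongrRight fun i =>
    Equiv.mulLeft (red (Finset.dvd_prod_of_mem e (Finset.mem_univ i)) g)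
  map_one' := by
    ext1 ⟨i, w⟩
    change (⟨i, red (Finset.dvd_prod_of_mem e (Finset.mem_univ i)) 1 * w⟩ :
      Σ i : Fin b, DihedralGroup (e i)) = ⟨i, w⟩
    rw [map_one, one_mul]
  map_mul' g h := by
    ext1 ⟨i, w⟩
    change (⟨i, red (Finset.dvd_prod_of_mem e (Finset.mem_univ i)) (g * h) * w⟩ :
      Σ i : Fin b, DihedralGroup (e i)) =
      ⟨i, red (Finset.dvd_prod_of_mem e (Finset.mem_univ i)) g *
        (red (Finset.dvd_prod_of_mem e (Finset.mem_univ i)) h * w)⟩
    rw [map_mul, mul_assoc]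

theorem act_apply (g : DihedralGroup (∏ i, e i)) (i : Fin b) (w : DihedralGroup (e i)) :
    act e g ⟨i, w⟩ = ⟨i, red (Finset.dvd_prod_of_mem e (Finset.mem_univ i)) g * w⟩ := rfl

theorem act_eq_iff (g : DihedralGroup (∏ i, e i)) (i : Fin b) (w w' : DihedralGroup (e i)) :
    act e g ⟨i, w⟩ = ⟨i, w'⟩ ↔
      red (Finset.dvd_prod_of_mem e (Finset.mem_univ i)) g * w = w' := by
  rw [act_apply]
  constructor
  · intro h
    exact eq_of_heq (Sigma.mk.inj h).2
  · rintro rfl
    rfl

/-- an element with trivial reductions is trivial -/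
theorem red_one (hb : 1 ≤ b) (hc : Pairwise (Function.onFun Nat.Coprime e))
    (g : DihedralGroup (∏ i, e i))
    (h : ∀ i, red (Finset.dvd_prod_of_mem e (Finset.mem_univ i)) g = 1) : g = 1 := by
  rcases g with a | a
  · have : a = 0 := by
      apply crt_inj e hc
      intro i
      have := h i
      change DihedralGroup.r (ZMod.castHom _ (ZMod (e i)) a) = DihedralGroup.r 0 at this
      exact DihedralGroup.r.inj this
    rw [this]
    rfl
  · have := h ⟨0, by omega⟩
    change DihedralGroup.sr (ZMod.castHom _ _ a) = DihedralGroup.r 0 at this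
    cases this

/-- gluing: all rotations or all reflections -/
theorem glue (hb : 1 ≤ b) (hc : Pairwise (Function.onFun Nat.Coprime e))
    (w : ∀ i, DihedralGroup (e i))
    (h : ∀ i j, ∃ g : DihedralGroup (∏ i, e i),
      red (Finset.dvd_prod_of_mem e (Finset.mem_univ i)) g = w i ∧
      red (Finset.dvd_prod_of_mem e (Finset.mem_univ j)) g = w j) :
    ∃ g : DihedralGroup (∏ i, e i), ∀ i,
      red (Finset.dvd_prod_of_mem e (Finset.mem_univ i)) g = w i := by
  have i0 : Fin b := ⟨0, by omega⟩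
  rcases hw : w i0 with a | a
  · have key : ∀ i, ∃ v : ZMod (e i), w i = DihedralGroup.r v := by
      intro i
      obtain ⟨g, h1, h2⟩ := h i0 i
      rcases g with c | c
      · exact ⟨_, h2.symm⟩
      · rw [hw] at h1
        change DihedralGroup.sr _ = DihedralGroup.r _ at h1
        cases h1
    choose v hv using key
    obtain ⟨c, hc'⟩ := crt e hc v
    refine ⟨DihedralGroup.r c, fun i => ?_⟩
    rw [hv i, ← hc' i]
    rfl
  · have key : ∀ i, ∃ v : ZMod (e i), w i = DihedralGroup.sr v := by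
      intro i
      obtain ⟨g, h1, h2⟩ := h i0 i
      rcases g with c | c
      · rw [hw] at h1
        change DihedralGroup.r _ = DihedralGroup.sr _ at h1
        cases h1
      · exact ⟨_, h2.symm⟩
    choose v hv using key
    obtain ⟨c, hc'⟩ := crt e hc v
    refine ⟨DihedralGroup.sr c, fun i => ?_⟩
    rw [hv i, ← hc' i]
    rfl

theorem twoClosed (hb : 1 ≤ b) (hc : Pairwise (Function.onFun Nat.Coprime e)) :
    TwoClosed (act e) := by
  intro π hπ
  have h1 : ∀ i, ∃ w : DihedralGroup (e i), π ⟨i, 1⟩ = ⟨i, w⟩ := by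
    intro i
    obtain ⟨g, hg, -⟩ := hπ ⟨i, 1⟩ ⟨i, 1⟩
    exact ⟨_, by rw [← hg, act_apply]⟩
  choose w hw using h1
  have h2 : ∀ i v, π ⟨i, v⟩ = ⟨i, w i * v⟩ := by
    intro i v
    obtain ⟨g, hg, hg'⟩ := hπ ⟨i, 1⟩ ⟨i, v⟩
    rw [hw, act_eq_iff, mul_one] at hg
    rw [← hg', act_apply, hg]
  obtain ⟨g, hg⟩ := glue e hb hc w fun i j => by
    obtain ⟨g, hg, hg'⟩ := hπ ⟨i, 1⟩ ⟨j, 1⟩
    rw [hw, act_eq_iff, mul_one] at hg hg'
    exact ⟨g, hg, hg'⟩
  refine ⟨g, ?_⟩
  ext1 ⟨i, v⟩
  rw [h2, act_apply, hg]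

theorem baseSize (hb : 1 ≤ b) (hc : Pairwise (Function.onFun Nat.Coprime e))
    (he : ∀ i, 1 < e i) : BaseSize (act e) b := by
  classical
  constructor
  · refine ⟨Finset.univ.image fun i => (⟨i, 1⟩ : Σ i : Fin b, DihedralGroup (e i)), ?_, ?_⟩
    · rw [Finset.card_image_of_injective, Finset.card_univ, Fintype.card_fin]
      intro i j hij
      exact (Sigma.mk.inj hij).1
    · intro g hg
      apply red_one e hb hc
      intro i
      have := hg ⟨i, 1⟩ (Finset.mem_image.2 ⟨i, Finset.mem_univ i, rfl⟩)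
      rwa [act_eq_iff, mul_one] at this
  · rintro k ⟨B, rfl, hB⟩
    by_contra hlt
    push Not at hlt
    have hns : ¬ (Finset.univ : Finset (Fin b)) ⊆ B.image Sigma.fst := by
      intro hsub
      have h1 := Finset.card_le_card hsub
      rw [Finset.card_univ, Fintype.card_fin] at h1
      have h2 : (B.image Sigma.fst).card ≤ B.card := Finset.card_image_le
      omega
    obtain ⟨i, -, hi⟩ := Finset.not_subset.1 hns
    obtain ⟨c, hc'⟩ := crt e hc fun j => if j = i then 1 else 0
    have hg := hB (DihedralGroup.r c) (by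
      rintro ⟨j, w⟩ hx
      have hji : j ≠ i := by
        rintro rfl
        exact hi (Finset.mem_image.2 ⟨_, hx, rfl⟩)
      rw [act_eq_iff]
      have : red (Finset.dvd_prod_of_mem e (Finset.mem_univ j)) (DihedralGroup.r c) = 1 := by
        change DihedralGroup.r (ZMod.castHom _ (ZMod (e j)) c) = DihedralGroup.r 0
        rw [hc' j, if_neg hji]
      rw [this, one_mul])
    have hc0 : c = 0 := by
      change DihedralGroup.r c = DihedralGroup.r 0 at hg
      exact DihedralGroup.r.inj hg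
    have h3 := hc' i
    rw [hc0, map_zero, if_pos rfl] at h3
    have : Fact (1 < e i) := ⟨he i⟩
    exact zero_ne_one h3

end Reg

theorem s_R : S_R := by
  intro n hn b hb hbn
  obtain ⟨e, he, hc, rfl⟩ := Reg.exists_parts n hn b hb hbn
  have : ∀ i, NeZero (e i) := fun i => ⟨by have := he i; omega⟩
  refine ⟨Σ i : Fin b, DihedralGroup (e i), inferInstance, ⟨⟨⟨0, by omega⟩, 1⟩⟩, Reg.act e, ?_,
    Reg.twoClosed e hb hc, Reg.baseSize e hb hc he⟩
  rw [injective_iff_map_eq_one]
  intro g hg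
  apply Reg.red_one e hb hc
  intro i
  have : Reg.act e g ⟨i, 1⟩ = ⟨i, 1⟩ := by rw [hg]; rfl
  rwa [Reg.act_eq_iff, mul_one] at this

end R624DB
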