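import Pool.Agent.R624.DB.Defs

/-!
# Upper bound of the base size of a faithful action of the dihedral group
-/

set_option autoImplicit false

namespace R624DB

theorem ub_ne_zero {n p : ℕ} (hn : 2 ≤ n) (hp : p.Prime) (hd : p ∣ n) :
    ((n / p : ℕ) : ZMod n) ≠ 0 := by
  intro h
  rw [ZMod.natCast_eq_zero_iff] at h
  have h1 : 0 < n / p := Nat.div_pos (Nat.le_of_dvd (by omega) hd) hp.pos
  have h2 : n / p < n := Nat.div_lt_self (by omega) hp.one_lt
  have h3 := Nat.le_of_dvd h1 h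
  omega

theorem ub_mem {n : ℕ} (hn : 2 ≤ n) (H : AddSubgroup (ZMod n)) {a : ZMod n} (ha : a ≠ 0)
    (haH : a ∈ H) : ∃ p : ℕ, p.Prime ∧ p ∣ n ∧ ((n / p : ℕ) : ZMod n) ∈ H := by
  haveI : NeZero n := ⟨by omega⟩
  obtain ⟨m, hm⟩ : ∃ m, m = a.val := ⟨_, rfl⟩
  have hma : (m : ZMod n) = a := by
    rw [hm, ZMod.natCast_zmod_val]
  have hmn : m < n := by
    rw [hm]
    exact ZMod.val_lt a
  have hm0 : 0 < m := by
    rcases Nat.eq_zero_or_pos m with h | h
    · exfalso
      apply ha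
      rw [← hma, h, Nat.cast_zero]
    · exact h
  obtain ⟨g, hg⟩ : ∃ g, g = Nat.gcd m n := ⟨_, rfl⟩
  have hgm : g ∣ m := by
    rw [hg]
    exact Nat.gcd_dvd_left m n
  have hgn : g ∣ n := by
    rw [hg]
    exact Nat.gcd_dvd_right m n
  have hg1 : g ≤ m := Nat.le_of_dvd hm0 hgm
  obtain ⟨e, he⟩ := hgn
  have he1 : e ≠ 1 := by
    rintro rfl
    omega
  obtain ⟨p, hp, t, ht⟩ := Nat.exists_prime_and_dvd he1
  refine ⟨p, hp, ⟨g * t, by rw [he, ht]; ring⟩, ?_⟩
  have h1 : n / p = t * g := by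
    apply Nat.div_eq_of_eq_mul_right hp.pos
    rw [he, ht]
    ring
  have h2 : ((g : ℕ) : ZMod n) = ((Nat.gcdA m n : ℤ) : ZMod n) * a := by
    have h3 := congrArg (fun z : ℤ => (z : ZMod n)) (Nat.gcd_eq_gcd_ab m n)
    simp only [Int.cast_natCast, Int.cast_add, Int.cast_mul] at h3
    rw [← hg] at h3
    rw [h3, hma, ZMod.natCast_self]
    ring
  have h3 : ((n / p : ℕ) : ZMod n) = ((t : ℤ) * Nat.gcdA m n : ℤ) • a := by
    rw [h1, zsmul_eq_mul]
    push_cast
    rw [h2]
    ring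
  rw [h3]
  exact H.zsmul_mem haH _

theorem s_ub : S_ub := by
  classical
  intro n hn X _ ρ hρ
  haveI : NeZero n := ⟨by omega⟩
  have hmove : ∀ g : DihedralGroup n, g ≠ 1 → ∃ x, ρ g x ≠ x := by
    intro g hg
    by_contra hcon
    push Not at hcon
    apply hg
    apply hρ
    rw [map_one]
    ext x
    exact hcon x
  have hx : ∀ p : n.primeFactors, ∃ x, ρ (DihedralGroup.r ((n / (p : ℕ) : ℕ) : ZMod n)) x ≠ x := by
    intro p
    apply hmove
    have hp := Nat.mem_primeFactors.1 p.2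
    rw [DihedralGroup.one_def]
    intro h
    exact ub_ne_zero hn hp.1 hp.2.1 (DihedralGroup.r.inj h)
  choose x hx using hx
  obtain ⟨B0, hB0⟩ : ∃ B0 : Finset X, B0 = Finset.univ.image x := ⟨_, rfl⟩
  have hcard : B0.card ≤ n.primeFactors.card := by
    rw [hB0]
    refine Finset.card_image_le.trans ?_
    rw [Finset.card_univ, Fintype.card_coe]
  have hmul : ∀ g h : DihedralGroup n, (∀ y ∈ B0, ρ g y = y) → (∀ y ∈ B0, ρ h y = y) →
      ∀ y ∈ B0, ρ (g * h) y = y := by
    intro g h hg hh y hy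
    rw [map_mul, Equiv.Perm.mul_apply, hh y hy, hg y hy]
  have hinv : ∀ g : DihedralGroup n, (∀ y ∈ B0, ρ g y = y) → ∀ y ∈ B0, ρ g⁻¹ y = y := by
    intro g hg y hy
    rw [map_inv, Equiv.Perm.inv_eq_iff_eq, hg y hy]
  let H : AddSubgroup (ZMod n) :=
    { carrier := {b | ∀ y ∈ B0, ρ (DihedralGroup.r b) y = y}
      zero_mem' := by
        intro y _
        rw [← DihedralGroup.one_def, map_one]
        rfl
      add_mem' := by
        intro a b ha hb
        have h := hmul _ _ ha hb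
        rw [DihedralGroup.r_mul_r] at h
        exact h
      neg_mem' := by
        intro a ha
        have h := hinv _ ha
        rw [DihedralGroup.inv_r] at h
        exact h }
  have hrot : ∀ a : ZMod n, (∀ y ∈ B0, ρ (DihedralGroup.r a) y = y) → a = 0 := by
    intro a ha
    by_contra hne
    obtain ⟨p, hp, hpn, hpH⟩ := ub_mem hn H hne ha
    have hpm : p ∈ n.primeFactors := Nat.mem_primeFactors.2 ⟨hp, hpn, by omega⟩
    exact hx ⟨p, hpm⟩ (hpH (x ⟨p, hpm⟩) (by
      rw [hB0]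
      exact Finset.mem_image_of_mem _ (Finset.mem_univ _)))
  by_cases hsr : ∃ b : ZMod n, ∀ y ∈ B0, ρ (DihedralGroup.sr b) y = y
  · obtain ⟨b0, hb0⟩ := hsr
    obtain ⟨y0, hy0⟩ := hmove (DihedralGroup.sr b0) (by
      rw [DihedralGroup.one_def]
      intro h
      cases h)
    refine ⟨insert y0 B0, (Finset.card_insert_le _ _).trans (by omega), ?_⟩
    rintro (a | b) hg
    · rw [hrot a fun y hy => hg y (Finset.mem_insert_of_mem hy), DihedralGroup.one_def]
    · exfalso
      have h1 := hmul _ _ hb0 (fun y hy => hg y (Finset.mem_insert_of_mem hy))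
      rw [DihedralGroup.sr_mul_sr] at h1
      have h2 := hrot _ h1
      rw [sub_eq_zero] at h2
      subst h2
      exact hy0 (hg y0 (Finset.mem_insert_self _ _))
  · refine ⟨B0, hcard.trans (Nat.le_succ _), ?_⟩
    rintro (a | b) hg
    · rw [hrot a hg, DihedralGroup.one_def]
    · exact absurd ⟨b, hg⟩ hsr

end R624DB
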